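import Mathlib

/-!
# Many prime factors of `n j ± a ^ h k` simultaneously

We prove the conjecture: for every real `K ≥ 2` and `ε ∈ (0,1)` and all large `x`, the interval
`[x, (1 + 1/K) x]` contains at least `x ^ (1 - ε)` integers `n` such that
`ω(n j ± a ^ h k) ≥ (log log x) ^ (1 - ε)` for all `2 ≤ a ≤ K`, `1 ≤ j, k ≤ K`, `0 ≤ h ≤ K log x`.

Outline of the proof.

* (`Zsig`) A weak Bang-Zsigmondy theorem: for `a, t ≥ 2` there is a prime `p` such that `a²` has
  order exactly `t` modulo `p`; hence `a` has order at most `2 t`.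
* (`Choice`) For the primes `p` (larger than `K`) dividing `a ^ (2 t) - 1` with
  `t ≤ T = √(δ log x)` one chooses the residue class of `n` modulo `p` at random among the classes
  annihilating one of the forms.  The product `W` of these primes is at most `x ^ (ε / 4)` while the
  expected number of such primes dividing a given form is `≫_K log log x`.  A derandomised
  exponential moment argument gives a residue class modulo `W`.
* (`Sieve`) For the remaining primes, Brun's pure sieve with the weight `y ^ ω` shows that the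
  exponential moment of the number of prime factors is at most `(log x) ^ (-(1 - y) + o(1))`.
* The product of the two savings beats the number `O(log x)` of linear forms.
-/

namespace Pool.Agent.Results.MP_28b5ac_nt.ManyPrimeFactors

/-- `ω(m)`: the number of distinct primes dividing `|m|`; in particular `ω(0) = 0`. -/
def omega (m : ℤ) : ℕ := m.natAbs.primeFactors.card

/-- The integer `n` is `(K, ε, x)`-good: `ω(n j + a ^ h k) ≥ (log log x) ^ (1 - ε)` and
`ω(n j - a ^ h k) ≥ (log log x) ^ (1 - ε)` for all integers `2 ≤ a ≤ K`, `1 ≤ j, k ≤ K` and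
`0 ≤ h ≤ K log x`. -/
def Good (K ε x : ℝ) (n : ℤ) : Prop :=
  ∀ a j k h : ℕ, 2 ≤ a → (a : ℝ) ≤ K → 1 ≤ j → (j : ℝ) ≤ K → 1 ≤ k → (k : ℝ) ≤ K →
    (h : ℝ) ≤ K * Real.log x →
    (Real.log (Real.log x)) ^ (1 - ε) ≤ omega (n * j + a ^ h * k) ∧
    (Real.log (Real.log x)) ^ (1 - ε) ≤ omega (n * j - a ^ h * k)

namespace Zsig

open Polynomial

theorem totient_sq_bound (t : ℕ) :
    (Odd t → t ≤ (Nat.totient t) ^ 2) ∧ t ≤ 2 * (Nat.totient t) ^ 2 := by
  induction t using Nat.recOnPosPrimePosCoprime with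
  | zero => simp
  | one => simp
  | prime_pow p n hp hn =>
    obtain ⟨m, rfl⟩ : ∃ m, n = m + 1 := ⟨n - 1, by omega⟩
    rw [Nat.totient_prime_pow_succ hp]
    have h2 := hp.two_le
    constructor
    · intro hodd
      have hp2 : p ≠ 2 := by
        rintro rfl
        rw [Nat.odd_pow_iff (by omega)] at hodd
        exact absurd hodd (by decide)
      have hp3 : 3 ≤ p := by omega
      have h1 : p ≤ (p - 1) ^ 2 := by
        obtain ⟨q, rfl⟩ : ∃ q, p = q + 3 := ⟨p - 3, by omega⟩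
        have : q + 3 - 1 = q + 2 := by omega
        rw [this]; nlinarith
      calc p ^ (m + 1) = p ^ m * p := pow_succ _ _
        _ ≤ (p ^ m) ^ 2 * (p - 1) ^ 2 := by
          apply Nat.mul_le_mul _ h1
          exact Nat.le_self_pow (by norm_num) _
        _ = (p ^ m * (p - 1)) ^ 2 := by ring
    · rcases Nat.lt_or_ge p 3 with h3 | h3
      · have : p = 2 := by omega
        subst this
        have : 1 ≤ 2 ^ m := Nat.one_le_two_pow
        have h' : (2:ℕ) ^ m ≤ (2 ^ m) ^ 2 := Nat.le_self_pow (by norm_num) _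
        calc 2 ^ (m + 1) = 2 * 2 ^ m := by ring
          _ ≤ 2 * (2 ^ m) ^ 2 := by omega
          _ = 2 * (2 ^ m * (2 - 1)) ^ 2 := by norm_num
      · have h1 : p ≤ (p - 1) ^ 2 := by
          obtain ⟨q, rfl⟩ : ∃ q, p = q + 3 := ⟨p - 3, by omega⟩
          have : q + 3 - 1 = q + 2 := by omega
          rw [this]; nlinarith
        calc p ^ (m + 1) = p ^ m * p := pow_succ _ _
          _ ≤ (p ^ m) ^ 2 * (p - 1) ^ 2 := by
            apply Nat.mul_le_mul _ h1
            exact Nat.le_self_pow (by norm_num) _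
          _ = (p ^ m * (p - 1)) ^ 2 := by ring
          _ ≤ 2 * (p ^ m * (p - 1)) ^ 2 := by omega
  | coprime a b ha hb hab iha ihb =>
    rw [Nat.totient_mul hab, mul_pow]
    constructor
    · intro hodd
      have := Nat.odd_mul.mp hodd
      exact Nat.mul_le_mul (iha.1 this.1) (ihb.1 this.2)
    · by_cases hao : Odd a
      · calc a * b ≤ a.totient ^ 2 * (2 * b.totient ^ 2) := Nat.mul_le_mul (iha.1 hao) ihb.2
          _ = _ := by ring
      · have hbo : Odd b := by
          by_contra hbo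
          rw [Nat.not_odd_iff_even] at hao hbo
          have h2 : 2 ∣ Nat.gcd a b := Nat.dvd_gcd hao.two_dvd hbo.two_dvd
          rw [hab] at h2
          omega
        calc a * b ≤ (2 * a.totient ^ 2) * (b.totient ^ 2) := Nat.mul_le_mul iha.2 (ihb.1 hbo)
          _ = _ := by ring

theorem lt_three_pow_totient {t : ℕ} (ht : 0 < t) : t < 3 ^ (Nat.totient t) := by
  have h := (totient_sq_bound t).2
  have hpos : 0 < Nat.totient t := Nat.totient_pos.mpr ht
  have key : ∀ n : ℕ, 0 < n → 2 * n ^ 2 < 3 ^ n := by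
    intro n hn
    induction n with
    | zero => omega
    | succ k ih =>
      rcases Nat.lt_or_ge k 3 with hk | hk
      · interval_cases k <;> norm_num
      · have := ih (by omega)
        calc 2 * (k + 1) ^ 2 ≤ 3 * (2 * k ^ 2) := by nlinarith
          _ < 3 * 3 ^ k := by omega
          _ = 3 ^ (k + 1) := by ring
  exact lt_of_le_of_lt h (key _ hpos)

/-- `p ^ 2` does not divide `Φ_t(a²)` when the prime `p` divides `t`. -/
theorem sq_not_dvd {a t p : ℕ} (ha : 2 ≤ a) (ht : 0 < t) (hp : p.Prime) (hpt : p ∣ t) :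
    ¬ ((p : ℤ) ^ 2 ∣ (cyclotomic t ℤ).eval ((a : ℤ) ^ 2)) := by
  intro hdvd
  obtain ⟨s, rfl⟩ := hpt
  have hs : 0 < s := Nat.pos_of_mul_pos_left ht |> fun h => by
    rcases Nat.eq_zero_or_pos s with h0 | h0
    · subst h0; simp at ht
    · exact h0
  have hprop : s ∈ (p * s).properDivisors := by
    rw [Nat.mem_properDivisors]
    refine ⟨Dvd.intro_left _ rfl, ?_⟩
    have := hp.two_le
    nlinarith
  have h1 := X_pow_sub_one_mul_cyclotomic_dvd_X_pow_sub_one_of_dvd ℤ hprop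
  obtain ⟨Q, hQ⟩ := h1
  have h2 := congrArg (eval ((a : ℤ) ^ 2)) hQ
  simp only [eval_sub, eval_pow, eval_X, eval_one, eval_mul] at h2
  set B : ℤ := ((a : ℤ) ^ 2) ^ s with hB
  have hBp : ((a : ℤ) ^ 2) ^ (p * s) = B ^ p := by
    rw [hB, ← pow_mul ((a : ℤ) ^ 2) s p, mul_comm p s]
  rw [hBp] at h2
  have hB1 : 1 < B := by
    rw [hB]
    apply one_lt_pow₀ _ hs.ne'
    have : (2:ℤ) ≤ a := by exact_mod_cast ha
    nlinarith
  have hgeom : (∑ i ∈ Finset.range p, B ^ i) * (B - 1) = B ^ p - 1 := geom_sum_mul B p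
  have h3 : (∑ i ∈ Finset.range p, B ^ i) = (cyclotomic (p * s) ℤ).eval ((a : ℤ) ^ 2) *
      eval ((a : ℤ) ^ 2) Q := by
    have hne : B - 1 ≠ 0 := by omega
    apply mul_right_cancel₀ hne
    rw [hgeom, h2]; ring
  have hG : (p : ℤ) ^ 2 ∣ ∑ i ∈ Finset.range p, B ^ i := by
    rw [h3]; exact Dvd.dvd.mul_right hdvd _
  have hGp : (p : ℤ) ∣ ∑ i ∈ Finset.range p, B ^ i := dvd_trans (dvd_pow_self _ (by norm_num)) hG
  -- B ≡ 1 mod p
  have hBmod : (p : ℤ) ∣ B - 1 := by
    have hd : (p : ℤ) ∣ B ^ p - 1 := by rw [← hgeom]; exact Dvd.dvd.mul_right hGp _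
    have : Fact p.Prime := ⟨hp⟩
    have hz : ((B ^ p - 1 : ℤ) : ZMod p) = 0 := (ZMod.intCast_zmod_eq_zero_iff_dvd _ p).mpr hd
    push_cast at hz
    rw [ZMod.pow_card] at hz
    have : ((B - 1 : ℤ) : ZMod p) = 0 := by push_cast; exact hz
    exact (ZMod.intCast_zmod_eq_zero_iff_dvd _ p).mp this
  obtain ⟨c, hc⟩ := hBmod
  have hBc : B = 1 + p * c := by linarith
  rcases hp.eq_two_or_odd' with rfl | hodd
  · -- p = 2
    have hG2 : (4:ℤ) ∣ 1 + B := by
      have := hG
      simp [Finset.sum_range_succ] at this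
      norm_num at this
      exact this
    have hsq : B = ((a:ℤ) ^ s) ^ 2 := by rw [hB]; ring
    rw [hsq] at hG2
    set y := (a:ℤ) ^ s
    obtain ⟨w, hw⟩ := hG2
    rcases Int.even_or_odd y with ⟨z, hz⟩ | ⟨z, hz⟩
    · rw [hz] at hw; ring_nf at hw; omega
    · rw [hz] at hw; ring_nf at hw; omega
  · have h4 := odd_sq_dvd_geom_sum₂_sub (R := ℤ) 1 c hodd
    have h5 : (p : ℤ) ^ 2 ∣ p := by
      have h6 : (∑ i ∈ Finset.range p, ((1:ℤ) + p * c) ^ i * 1 ^ (p - 1 - i)) =
          ∑ i ∈ Finset.range p, B ^ i := by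
        apply Finset.sum_congr rfl
        intro i _
        rw [hBc]; simp
      rw [h6] at h4
      simp only [one_pow, mul_one] at h4
      have := dvd_sub hG h4
      simpa using this
    have h7 : ((p:ℤ)) ^ 2 ≤ p := Int.le_of_dvd (by exact_mod_cast hp.pos) h5
    have h8 : (2:ℤ) ≤ p := by exact_mod_cast hp.two_le
    nlinarith

/-- A weak form of the Bang-Zsigmondy theorem: for `a ≥ 2` and `t ≥ 2` there is a prime `p` such
that `a²` has multiplicative order exactly `t` modulo `p`. -/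
theorem exists_prime_order {a t : ℕ} (ha : 2 ≤ a) (ht : 2 ≤ t) :
    ∃ p : ℕ, p.Prime ∧ orderOf (((a:ℕ) ^ 2 : ℕ) : ZMod p) = t := by
  set N : ℕ := ((cyclotomic t ℤ).eval (((a ^ 2 : ℕ) : ℤ))).natAbs with hN
  have hNbig : t < N := by
    have h1 : (a ^ 2 - 1) ^ Nat.totient t < N :=
      sub_one_pow_totient_lt_natAbs_cyclotomic_eval (by omega) (by nlinarith)
    have h2 : t < 3 ^ (Nat.totient t) := lt_three_pow_totient (by omega)
    have h3 : 3 ≤ a ^ 2 - 1 := by
      have : 4 ≤ a ^ 2 := by nlinarith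
      omega
    have h4 : 3 ^ (Nat.totient t) ≤ (a ^ 2 - 1) ^ Nat.totient t := Nat.pow_le_pow_left h3 _
    omega
  have hN0 : N ≠ 0 := by omega
  by_contra hcon
  push Not at hcon
  -- every prime factor of N divides t
  have hall : ∀ p : ℕ, p.Prime → p ∣ N → p ∣ t := by
    intro p hp hpN
    by_contra hpt
    have : Fact p.Prime := ⟨hp⟩
    have : NeZero ((t : ZMod p)) := ⟨by
      intro h0
      exact hpt ((ZMod.natCast_eq_zero_iff _ _).mp h0)⟩
    apply hcon p hp
    have hroot : IsRoot (cyclotomic t (ZMod p)) (((a ^ 2 : ℕ)) : ZMod p) := by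
      rw [IsRoot.def, ← map_cyclotomic_int t (ZMod p)]
      have : (((a ^ 2 : ℕ)) : ZMod p) = (Int.castRingHom (ZMod p)) ((a ^ 2 : ℕ) : ℤ) := by simp
      rw [this, eval_map, eval₂_hom]
      rw [eq_intCast, ZMod.intCast_zmod_eq_zero_iff_dvd]
      exact Int.natCast_dvd.mpr hpN
    have := isRoot_cyclotomic_iff.mp hroot
    exact this.eq_orderOf.symm
  have hsf : Squarefree N := by
    rw [Nat.squarefree_iff_prime_squarefree]
    intro p hp hpp
    have hpN : p ∣ N := dvd_trans (Dvd.intro _ rfl) hpp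
    apply sq_not_dvd ha (by omega : 0 < t) hp (hall p hp hpN)
    have h1 : ((p * p : ℕ) : ℤ) ∣ (cyclotomic t ℤ).eval (((a ^ 2 : ℕ) : ℤ)) :=
      Int.natCast_dvd.mpr hpp
    push_cast at h1
    rw [pow_two]
    exact h1
  have hdvd : N ∣ t := by
    rw [← Nat.prod_primeFactors_of_squarefree hsf]
    refine dvd_trans (Finset.prod_dvd_prod_of_subset _ t.primeFactors _ ?_)
      (Nat.prod_primeFactors_dvd t)
    intro p hp
    rw [Nat.mem_primeFactors] at hp ⊢
    exact ⟨hp.1, hall p hp.1 hp.2.1, by omega⟩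
  have := Nat.le_of_dvd (by omega) hdvd
  omega

end Zsig

namespace PrimeSums

open Finset Real

/-- Lower bound of Mertens type: `∑_{p < N} 1/p ≥ log log N - 1`. -/
theorem sum_inv_lower {N : ℕ} (hN : 2 ≤ N) :
    log (log N) - 1 ≤ ∑ p ∈ Nat.primesBelow N, (1 : ℝ) / p := by
  -- Euler product
  have h1 : log N ≤ ∏ p ∈ Nat.primesBelow N, (1 - (1 : ℝ) / p)⁻¹ := by
    let f : ℕ →* ℝ :=
      { toFun := fun n => (n : ℝ)⁻¹
        map_one' := by simp
        map_mul' := by intro a b; push_cast; rw [mul_inv] }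
    have hf : ∀ {p : ℕ}, p.Prime → ‖f p‖ < 1 := by
      intro p hp
      have : (1:ℝ) < p := by exact_mod_cast hp.one_lt
      change ‖(p:ℝ)⁻¹‖ < 1
      rw [norm_inv, Real.norm_of_nonneg (by linarith)]
      exact inv_lt_one_of_one_lt₀ this
    obtain ⟨hs, hsum⟩ :=
      EulerProduct.summable_and_hasSum_smoothNumbers_prod_primesBelow_geometric (f := f) hf N
    have hprod : ∏ p ∈ Nat.primesBelow N, (1 - (1 : ℝ) / p)⁻¹ =
        ∏ p ∈ Nat.primesBelow N, (1 - f p)⁻¹ := by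
      apply Finset.prod_congr rfl
      intro p _
      change (1 - (1:ℝ) / p)⁻¹ = (1 - (p:ℝ)⁻¹)⁻¹
      rw [one_div]
    rw [hprod, ← hsum.tsum_eq]
    have h2 : Real.log N ≤ ∑ i ∈ Finset.Icc 1 (N - 1), ((i : ℝ))⁻¹ := by
      have := log_add_one_le_harmonic (N - 1)
      rw [harmonic_eq_sum_Icc] at this
      push_cast at this
      have hN' : ((N - 1 : ℕ) : ℝ) + 1 = N := by
        have : (N - 1) + 1 = N := by omega
        exact_mod_cast this
      rw [hN'] at this
      exact this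
    refine h2.trans ?_
    -- finite subset of smooth numbers
    have hmem : ∀ i ∈ Finset.Icc 1 (N - 1), i ∈ N.smoothNumbers := by
      intro i hi
      rw [Finset.mem_Icc] at hi
      rw [Nat.mem_smoothNumbers_iff_forall_le]
      refine ⟨by omega, ?_⟩
      intro p hp _ _
      omega
    have hsum' : Summable (fun m : N.smoothNumbers => f m) := hsum.summable
    let S : Finset N.smoothNumbers := (Finset.Icc 1 (N - 1)).attach.map
      ⟨fun i => ⟨i.1, hmem i.1 i.2⟩, by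
        intro a b hab
        simp only [Subtype.mk.injEq] at hab
        exact Subtype.ext hab⟩
    have h3 : ∑ m ∈ S, f m = ∑ i ∈ Finset.Icc 1 (N - 1), ((i : ℝ))⁻¹ := by
      rw [Finset.sum_map, ← Finset.sum_attach (Finset.Icc 1 (N - 1)) (fun i => ((i:ℝ))⁻¹)]
      rfl
    rw [← h3]
    apply hsum'.sum_le_tsum S
    intro i _
    change (0:ℝ) ≤ ((i : ℕ) : ℝ)⁻¹
    positivity
  have hlogpos : 0 < log (N:ℝ) := Real.log_pos (by exact_mod_cast (by omega : 1 < N))
  have h2 : log (log N) ≤ ∑ p ∈ Nat.primesBelow N, log ((1 - (1 : ℝ) / p)⁻¹) := by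
    rw [← Real.log_prod]
    · exact Real.log_le_log hlogpos h1
    · intro p hp
      have hp' := Nat.prime_of_mem_primesBelow hp
      have : (1:ℝ) < p := by exact_mod_cast hp'.one_lt
      have : (1:ℝ) / p < 1 := by rw [div_lt_one (by linarith)]; exact this
      exact inv_ne_zero (by linarith)
  have h3 : ∀ p ∈ Nat.primesBelow N, log ((1 - (1 : ℝ) / p)⁻¹) ≤ 1 / p + 1 / (p * (p - 1)) := by
    intro p hp
    have hp' := Nat.prime_of_mem_primesBelow hp
    have h1p : (1:ℝ) < p := by exact_mod_cast hp'.one_lt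
    have hpos : (0:ℝ) < 1 - 1 / p := by
      have : (1:ℝ) / p < 1 := by rw [div_lt_one (by linarith)]; exact h1p
      linarith
    rw [Real.log_inv]
    have := Real.one_sub_inv_le_log_of_pos hpos
    have e : (1 - (1:ℝ) / p)⁻¹ = 1 + (1 / p + 1 / (p * (p - 1))) := by
      have hp0 : (p:ℝ) ≠ 0 := by linarith
      have hp1 : (p:ℝ) - 1 ≠ 0 := by linarith
      have : (1 - (1:ℝ) / p) = (p - 1) / p := by field_simp
      rw [this, inv_div]
      field_simp
      ring
    rw [e] at this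
    linarith
  have h4 : ∑ p ∈ Nat.primesBelow N, (1:ℝ) / (p * (p - 1)) ≤ 1 := by
    have hsub : Nat.primesBelow N ⊆ Finset.Ico 2 N := by
      intro p hp
      rw [Finset.mem_Ico]
      exact ⟨(Nat.prime_of_mem_primesBelow hp).two_le, Nat.lt_of_mem_primesBelow hp⟩
    have h5 : ∑ p ∈ Nat.primesBelow N, (1:ℝ) / (p * (p - 1)) ≤
        ∑ n ∈ Finset.Ico 2 N, (1:ℝ) / (n * (n - 1)) := by
      apply Finset.sum_le_sum_of_subset_of_nonneg hsub
      intro n hn _
      rw [Finset.mem_Ico] at hn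
      have : (2:ℝ) ≤ n := by exact_mod_cast hn.1
      apply div_nonneg zero_le_one
      nlinarith
    have h6 : ∀ M : ℕ, 2 ≤ M → ∑ n ∈ Finset.Ico 2 M, (1:ℝ) / (n * (n - 1)) = 1 - 1 / (M - 1) := by
      intro M hM
      induction M, hM using Nat.le_induction with
      | base => norm_num
      | succ M hM ih =>
        rw [Finset.sum_Ico_succ_top hM, ih]
        have hM2 : (2:ℝ) ≤ M := by exact_mod_cast hM
        have h0 : (M:ℝ) ≠ 0 := by linarith
        have h1 : (M:ℝ) - 1 ≠ 0 := by linarith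
        push_cast
        rw [add_sub_cancel_right]
        field_simp
        ring
    rw [h6 N hN] at h5
    have : (0:ℝ) ≤ 1 / (N - 1) := by
      apply div_nonneg zero_le_one
      have : (2:ℝ) ≤ N := by exact_mod_cast hN
      linarith
    linarith
  have h5 := Finset.sum_le_sum h3
  rw [Finset.sum_add_distrib] at h5
  linarith

/-- Dyadic block: `∑_{2^k < p ≤ 2^{k+1}} 1/p ≤ 4/k`. -/
theorem block_le {k : ℕ} (hk : 1 ≤ k) :
    ∑ p ∈ (Nat.primesLE (2 ^ (k + 1))).filter (fun p => 2 ^ k < p), (1 : ℝ) / p ≤ 4 / k := by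
  have hk' : (1:ℝ) ≤ k := by exact_mod_cast hk
  have hlog2 : 0 < log 2 := Real.log_pos (by norm_num)
  have h1 : ∀ p ∈ (Nat.primesLE (2 ^ (k + 1))).filter (fun p => 2 ^ k < p),
      (1 : ℝ) / p ≤ log p / (k * log 2 * 2 ^ k) := by
    intro p hp
    rw [Finset.mem_filter] at hp
    have hp2 : (2:ℝ) ^ k < p := by exact_mod_cast hp.2
    have hpos : (0:ℝ) < 2 ^ k := by positivity
    have hlogp : k * log 2 ≤ log p := by
      rw [← Real.log_pow]
      exact Real.log_le_log hpos hp2.le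
    rw [div_le_div_iff₀ (by linarith) (by positivity)]
    calc 1 * (k * log 2 * 2 ^ k) = (k * log 2) * 2 ^ k := by ring
      _ ≤ log p * p := by
        apply mul_le_mul hlogp hp2.le hpos.le
        exact le_trans (by positivity) hlogp
  have h2 := Finset.sum_le_sum h1
  refine h2.trans ?_
  rw [← Finset.sum_div]
  have h3 : ∑ p ∈ (Nat.primesLE (2 ^ (k + 1))).filter (fun p => 2 ^ k < p), log (p:ℝ) ≤
      log 4 * 2 ^ (k + 1) := by
    have h4 : ∑ p ∈ (Nat.primesLE (2 ^ (k + 1))).filter (fun p => 2 ^ k < p), log (p:ℝ) ≤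
        ∑ p ∈ Nat.primesLE (2 ^ (k + 1)), log (p:ℝ) := by
      apply Finset.sum_le_sum_of_subset_of_nonneg (Finset.filter_subset _ _)
      intro p hp _
      exact Real.log_natCast_nonneg p
    have h5 := Chebyshev.theta_le_log4_mul_x (x := ((2 ^ (k + 1) : ℕ) : ℝ)) (by positivity)
    rw [Chebyshev.theta_eq_sum_primesLE_log] at h5
    push_cast at h5
    exact h4.trans h5
  have h4 : log 4 = 2 * log 2 := by
    have : (4:ℝ) = 2 ^ 2 := by norm_num
    rw [this, Real.log_pow]; norm_num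
  rw [h4] at h3
  rw [div_le_div_iff₀ (by positivity) (by positivity)]
  calc (∑ p ∈ (Nat.primesLE (2 ^ (k + 1))).filter (fun p => 2 ^ k < p), log (p:ℝ)) * k
      ≤ (2 * log 2 * 2 ^ (k + 1)) * k := by
        apply mul_le_mul_of_nonneg_right h3; linarith
    _ = 4 * (k * log 2 * 2 ^ k) := by rw [pow_succ]; ring

theorem sum_dyadic (m : ℕ) (hm : 1 ≤ m) :
    ∑ p ∈ Nat.primesLE (2 ^ m), (1 : ℝ) / p ≤ 1 / 2 + ∑ k ∈ Finset.Ico 1 m, (4:ℝ) / k := by
  induction m, hm using Nat.le_induction with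
  | base =>
    have : Nat.primesLE (2 ^ 1) = {2} := by decide
    rw [this]; simp
  | succ m hm ih =>
    rw [Finset.sum_Ico_succ_top hm]
    have hsplit : ∑ p ∈ Nat.primesLE (2 ^ (m + 1)), (1 : ℝ) / p ≤
        ∑ p ∈ Nat.primesLE (2 ^ m), (1 : ℝ) / p +
        ∑ p ∈ (Nat.primesLE (2 ^ (m + 1))).filter (fun p => 2 ^ m < p), (1 : ℝ) / p := by
      rw [← Finset.sum_union]
      · apply Finset.sum_le_sum_of_subset_of_nonneg
        · intro p hp
          rw [Finset.mem_union, Finset.mem_filter]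
          rcases Nat.lt_or_ge (2 ^ m) p with h | h
          · right; exact ⟨hp, h⟩
          · left
            rw [Nat.mem_primesLE] at hp ⊢
            exact ⟨h, hp.2⟩
        · intro p _ _
          positivity
      · rw [Finset.disjoint_left]
        intro p hp hp'
        rw [Finset.mem_filter] at hp'
        have := Nat.le_of_mem_primesLE hp
        omega
    have := block_le hm
    linarith

/-- Upper bound: `∑_{p ≤ N} 1/p ≤ 4 log log N + 12` for `N ≥ 3`. -/
theorem sum_inv_upper {N : ℕ} (hN : 3 ≤ N) :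
    ∑ p ∈ Nat.primesLE N, (1 : ℝ) / p ≤ 4 * log (log N) + 12 := by
  set m := Nat.clog 2 N with hm
  have hm1 : 1 ≤ m := by
    rw [hm]
    exact Nat.clog_pos (by norm_num) (by omega)
  have hNm : N ≤ 2 ^ m := Nat.le_pow_clog (by norm_num) N
  have h1 : ∑ p ∈ Nat.primesLE N, (1 : ℝ) / p ≤ ∑ p ∈ Nat.primesLE (2 ^ m), (1 : ℝ) / p := by
    apply Finset.sum_le_sum_of_subset_of_nonneg
    · intro p hp
      rw [Nat.mem_primesLE] at hp ⊢
      exact ⟨hp.1.trans hNm, hp.2⟩
    · intro p _ _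
      positivity
  have h2 := sum_dyadic m hm1
  have h3 : ∑ k ∈ Finset.Ico 1 m, (4:ℝ) / k ≤ 4 * (1 + log m) := by
    have h4 : ∑ k ∈ Finset.Ico 1 m, (4:ℝ) / k ≤ ∑ k ∈ Finset.Icc 1 m, (4:ℝ) / k := by
      apply Finset.sum_le_sum_of_subset_of_nonneg
      · intro k hk
        rw [Finset.mem_Ico] at hk
        rw [Finset.mem_Icc]
        omega
      · intro k _ _
        positivity
    have h5 := harmonic_le_one_add_log m
    rw [harmonic_eq_sum_Icc] at h5
    push_cast at h5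
    have h6 : ∑ k ∈ Finset.Icc 1 m, (4:ℝ) / k = 4 * ∑ k ∈ Finset.Icc 1 m, ((k:ℝ))⁻¹ := by
      rw [Finset.mul_sum]
      apply Finset.sum_congr rfl
      intro k _
      rw [div_eq_mul_inv]
    rw [h6] at h4
    linarith
  -- m ≤ log N / log 2 + 1
  have hlog2 : 0 < log 2 := Real.log_pos (by norm_num)
  have hlogN : 1 < log (N:ℝ) := by
    have : (3:ℝ) ≤ N := by exact_mod_cast hN
    have h3 : Real.exp 1 < 3 := by
      have := Real.exp_one_lt_d9
      linarith
    rw [Real.lt_log_iff_exp_lt (by linarith)]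
    linarith
  have hm2 : (m:ℝ) ≤ log N / log 2 + 1 := by
    have h5 : 2 ^ (m - 1) < N := by
      rw [hm]
      exact Nat.pow_pred_clog_lt_self (by norm_num) (by omega)
    have h6 : ((m - 1 : ℕ) : ℝ) * log 2 ≤ log N := by
      rw [← Real.log_pow]
      apply Real.log_le_log (by positivity)
      exact_mod_cast h5.le
    have h7 : ((m - 1 : ℕ) : ℝ) = m - 1 := by
      rw [Nat.cast_sub hm1]; simp
    rw [h7] at h6
    have : (m:ℝ) - 1 ≤ log N / log 2 := by
      rw [le_div_iff₀ hlog2]; exact h6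
    linarith
  have hm3 : (m:ℝ) ≤ 3 * log N := by
    have hl2 : (0.69:ℝ) < log 2 := by
      have := Real.log_two_gt_d9
      linarith
    have h8 : log N / log 2 ≤ log N * 1.5 := by
      rw [div_le_iff₀ hlog2]
      nlinarith
    linarith
  have hm0 : (0:ℝ) < m := by exact_mod_cast hm1
  have hlogm : log m ≤ log 3 + log (log N) := by
    rw [← Real.log_mul (by norm_num) (by linarith)]
    exact Real.log_le_log hm0 hm3
  have hlog3 : log 3 ≤ 1.2 := by
    have := Real.log_le_sub_one_of_pos (show (0:ℝ) < 3 / 2.7182818283 by norm_num)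
    have h9 : log (3 / 2.7182818283) = log 3 - log 2.7182818283 := by
      rw [Real.log_div (by norm_num) (by norm_num)]
    have h10 : log 2.7182818283 ≤ 1.05 := by
      have := Real.log_le_sub_one_of_pos (show (0:ℝ) < 2.7182818283 / Real.exp 1 by positivity)
      rw [Real.log_div (by norm_num) (by positivity), Real.log_exp] at this
      have h11 := Real.exp_one_gt_d9
      have : (2.7182818283:ℝ) / Real.exp 1 ≤ 1.01 := by
        rw [div_le_iff₀ (by positivity)]
        nlinarith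
      linarith
    rw [h9] at this
    norm_num at this h10 ⊢
    linarith
  linarith

end PrimeSums

namespace Sieve

open Finset Real

/-- Bonferroni-type inequality with parameter `u ∈ [0,1]`. -/
theorem bonferroni_aux (u : ℝ) (hu0 : 0 ≤ u) (w : ℕ) :
    ∀ r : ℕ, u ≤ 1 → 0 ≤ (-1 : ℝ) ^ r *
      (∑ k ∈ range (r + 1), (w.choose k : ℝ) * (-u) ^ k - (1 - u) ^ w) := by
  induction w with
  | zero =>
    intro r _
    have : ∑ k ∈ range (r + 1), ((0 : ℕ).choose k : ℝ) * (-u) ^ k = 1 := by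
      rw [Finset.sum_range_succ']
      simp
    rw [this]; simp
  | succ w ih =>
    intro r hu1
    rcases r with _ | r
    · simp only [pow_zero, zero_add, Finset.range_one, Finset.sum_singleton, Nat.choose_zero_right,
        Nat.cast_one, one_mul, mul_one]
      have : (1 - u) ^ (w + 1) ≤ 1 := pow_le_one₀ (by linarith) (by linarith)
      linarith
    · have hsum : ∑ k ∈ range (r + 1 + 1), ((w + 1).choose k : ℝ) * (-u) ^ k =
          ∑ k ∈ range (r + 1 + 1), (w.choose k : ℝ) * (-u) ^ k -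
            u * ∑ k ∈ range (r + 1), (w.choose k : ℝ) * (-u) ^ k := by
        rw [Finset.sum_range_succ', Finset.sum_range_succ' (fun k => (w.choose k : ℝ) * (-u) ^ k),
          Finset.mul_sum]
        have : ∀ k ∈ range (r + 1), (((w + 1).choose (k + 1) : ℕ) : ℝ) * (-u) ^ (k + 1) =
            (w.choose (k + 1) : ℝ) * (-u) ^ (k + 1) - u * ((w.choose k : ℝ) * (-u) ^ k) := by
          intro k _
          rw [Nat.choose_succ_succ]
          push_cast
          ring
        rw [Finset.sum_congr rfl this, Finset.sum_sub_distrib]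
        simp
        ring
      rw [hsum]
      have h1 := ih (r + 1) hu1
      have h2 := ih r hu1
      have : (-1 : ℝ) ^ (r + 1) *
          (∑ k ∈ range (r + 1 + 1), (w.choose k : ℝ) * (-u) ^ k -
            u * ∑ k ∈ range (r + 1), (w.choose k : ℝ) * (-u) ^ k - (1 - u) ^ (w + 1)) =
          (-1 : ℝ) ^ (r + 1) * (∑ k ∈ range (r + 1 + 1), (w.choose k : ℝ) * (-u) ^ k -
            (1 - u) ^ w) + u * ((-1 : ℝ) ^ r *
            (∑ k ∈ range (r + 1), (w.choose k : ℝ) * (-u) ^ k - (1 - u) ^ w)) := by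
        ring
      rw [this]
      have := mul_nonneg hu0 h2
      linarith

theorem bonferroni (u : ℝ) (hu0 : 0 ≤ u) (hu1 : u ≤ 1) (w r : ℕ) (hr : Even r) :
    (1 - u) ^ w ≤ ∑ k ∈ range (r + 1), (w.choose k : ℝ) * (-u) ^ k := by
  have := bonferroni_aux u hu0 w r hu1
  rw [hr.neg_one_pow] at this
  linarith

/-- The number of `i < M` with `d ∣ α i + β` when `α` is coprime to `d`. -/
theorem count_dvd {d : ℕ} (hd : 0 < d) (α β : ℤ) (hα : IsCoprime α (d : ℤ)) (M : ℕ) :
    |(((range M).filter (fun i : ℕ => (d : ℤ) ∣ α * i + β)).card : ℝ) - M / d| ≤ 1 := by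
  obtain ⟨x, y, hxy⟩ := hα
  set v : ℕ := ((-β * x) % (d : ℤ)).toNat with hv
  have hvz : (v : ℤ) = (-β * x) % (d : ℤ) := by
    rw [hv, Int.toNat_of_nonneg]
    exact Int.emod_nonneg _ (by exact_mod_cast hd.ne')
  have hv0 : (d : ℤ) ∣ α * v + β := by
    have h1 : (d : ℤ) ∣ (-β * x) - v := by
      rw [hvz]; exact Int.dvd_self_sub_emod
    obtain ⟨w, hw⟩ := h1
    have : α * v + β = β * (1 - x * α) - α * (d * w) := by
      rw [← hw]; ring
    rw [this]
    have h2 : 1 - x * α = y * d := by linarith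
    rw [h2]
    exact ⟨β * y - α * w, by ring⟩
  have hiff : ∀ i : ℕ, (d : ℤ) ∣ α * i + β ↔ i ≡ v [MOD d] := by
    intro i
    have h1 : (d : ℤ) ∣ α * i + β ↔ (d : ℤ) ∣ α * (i - v) := by
      have : α * i + β = α * (i - v) + (α * v + β) := by ring
      rw [this]
      exact (dvd_add_left hv0)
    rw [h1]
    have hc : IsCoprime (d : ℤ) α := IsCoprime.symm ⟨x, y, hxy⟩
    have h2 : (d : ℤ) ∣ α * (i - v) ↔ (d : ℤ) ∣ (i : ℤ) - v :=
      ⟨fun h => hc.dvd_of_dvd_mul_left h, fun h => Dvd.dvd.mul_left h _⟩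
    rw [h2, ← Int.natCast_modEq_iff, Int.modEq_comm, Int.modEq_iff_dvd]
  have hcount : ((range M).filter (fun i : ℕ => (d : ℤ) ∣ α * i + β)).card =
      M.count (· ≡ v [MOD d]) := by
    rw [Nat.count_eq_card_filter_range]
    congr 1
    apply Finset.filter_congr
    intro i _
    exact hiff i
  rw [hcount, Nat.count_modEq_card M hd v]
  have hdR : (0:ℝ) < d := by exact_mod_cast hd
  have h1 : ((M / d : ℕ) : ℝ) ≤ M / d := Nat.cast_div_le
  have h2 : (M:ℝ) / d < (M / d : ℕ) + 1 := by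
    rw [div_lt_iff₀ hdR]
    have := Nat.lt_succ_iff.mp (Nat.lt_succ_of_lt (Nat.lt_mul_div_succ M hd))
    have h3 : M < d * (M / d + 1) := Nat.lt_mul_div_succ M hd
    have h4 : (M:ℝ) < d * ((M / d : ℕ) + 1) := by exact_mod_cast h3
    linarith
  push_cast
  split_ifs with h
  · rw [abs_le]; constructor <;> push_cast <;> linarith
  · rw [abs_le]; constructor <;> push_cast <;> linarith

theorem prod_isCoprime (D : Finset ℕ) (hD : ∀ p ∈ D, p.Prime) (α : ℤ)
    (hα : ∀ p ∈ D, ¬ (p : ℤ) ∣ α) : IsCoprime α ((∏ p ∈ D, p : ℕ) : ℤ) := by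
  push_cast
  apply IsCoprime.prod_right
  intro p hp
  have hpp : Prime (p : ℤ) := Nat.prime_iff_prime_int.mp (hD p hp)
  exact ((Prime.coprime_iff_not_dvd hpp).mpr (hα p hp)).symm

theorem prod_dvd_iff (D : Finset ℕ) (hD : ∀ p ∈ D, p.Prime) (m : ℤ) :
    ((∏ p ∈ D, p : ℕ) : ℤ) ∣ m ↔ ∀ p ∈ D, (p : ℤ) ∣ m := by
  constructor
  · intro h p hp
    refine dvd_trans ?_ h
    exact_mod_cast Finset.dvd_prod_of_mem _ hp
  · intro h
    push_cast
    apply Finset.prod_dvd_of_coprime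
    · intro p hp q hq hpq
      have h1 : Nat.Coprime p q := (Nat.coprime_primes (hD p hp) (hD q hq)).mpr hpq
      exact Nat.isCoprime_iff_coprime.mpr h1
    · exact h

/-- Brun's pure sieve with weights `(1-u)^ω`. -/
theorem sieve (Q : Finset ℕ) (hQ : ∀ p ∈ Q, p.Prime) (hne : Q.Nonempty) (α β : ℤ)
    (hα : ∀ p ∈ Q, ¬ (p : ℤ) ∣ α) (M r : ℕ) (hr : Even r) (u : ℝ) (hu0 : 0 ≤ u) (hu1 : u ≤ 1) :
    ∑ i ∈ range M, (1 - u) ^ ((Q.filter (fun p : ℕ => (p : ℤ) ∣ α * i + β)).card) ≤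
      M * (exp (-(u * ∑ p ∈ Q, (1:ℝ) / p)) + exp (3 * (∑ p ∈ Q, (1:ℝ) / p) - r)) +
        3 * (Q.card : ℝ) ^ r := by
  classical
  set S : ℝ := ∑ p ∈ Q, (1:ℝ) / p with hS
  -- Step 1: Bonferroni, rewritten as a sum over subsets
  have step1 : ∀ i ∈ range M,
      (1 - u) ^ ((Q.filter (fun p : ℕ => (p : ℤ) ∣ α * i + β)).card) ≤
      ∑ D ∈ Q.powerset.filter (fun D => D.card ≤ r),
        (if ((∏ p ∈ D, p : ℕ) : ℤ) ∣ α * i + β then (-u) ^ D.card else 0) := by
    intro i _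
    set Qi := Q.filter (fun p : ℕ => (p : ℤ) ∣ α * i + β) with hQi
    refine (bonferroni u hu0 hu1 Qi.card r hr).trans (le_of_eq ?_)
    rw [← Finset.sum_filter]
    have hset : ((Q.powerset.filter (fun D => D.card ≤ r)).filter
        (fun D => ((∏ p ∈ D, p : ℕ) : ℤ) ∣ α * i + β)) =
        (range (r + 1)).biUnion (fun k => Qi.powersetCard k) := by
      ext D
      simp only [Finset.mem_filter, Finset.mem_powerset, Finset.mem_biUnion, Finset.mem_range,
        Finset.mem_powersetCard]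
      constructor
      · rintro ⟨⟨hDQ, hDr⟩, hdvd⟩
        refine ⟨D.card, by omega, ?_, rfl⟩
        intro p hp
        rw [hQi, Finset.mem_filter]
        refine ⟨hDQ hp, ?_⟩
        exact (prod_dvd_iff D (fun p hp => hQ p (hDQ hp)) _).mp hdvd p hp
      · rintro ⟨k, hk, hDQi, hcard⟩
        have hDQ : D ⊆ Q := hDQi.trans (Finset.filter_subset _ _)
        refine ⟨⟨hDQ, by omega⟩, ?_⟩
        rw [prod_dvd_iff D (fun p hp => hQ p (hDQ hp))]
        intro p hp
        exact (Finset.mem_filter.mp (hDQi hp)).2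
    rw [hset, Finset.sum_biUnion]
    · apply Finset.sum_congr rfl
      intro k _
      have : ∀ D ∈ Qi.powersetCard k, (-u) ^ D.card = (-u) ^ k := by
        intro D hD
        rw [(Finset.mem_powersetCard.mp hD).2]
      rw [Finset.sum_congr rfl this, Finset.sum_const, Finset.card_powersetCard, nsmul_eq_mul]
    · intro a _ b _ hab
      exact Finset.pairwise_disjoint_powersetCard Qi hab
  have step2 := Finset.sum_le_sum step1
  rw [Finset.sum_comm] at step2
  refine step2.trans ?_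
  -- Step 2: count
  have step3 : ∀ D ∈ Q.powerset.filter (fun D => D.card ≤ r),
      ∑ i ∈ range M, (if ((∏ p ∈ D, p : ℕ) : ℤ) ∣ α * i + β then (-u) ^ D.card else 0) ≤
      M * ∏ p ∈ D, (-u * (1 / p)) + 1 := by
    intro D hD
    rw [Finset.mem_filter, Finset.mem_powerset] at hD
    have hDp : ∀ p ∈ D, p.Prime := fun p hp => hQ p (hD.1 hp)
    have hpos : 0 < ∏ p ∈ D, p := Finset.prod_pos (fun p hp => (hDp p hp).pos)
    rw [← Finset.sum_filter, Finset.sum_const, nsmul_eq_mul]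
    have hc := count_dvd hpos α β (prod_isCoprime D hDp α (fun p hp => hα p (hD.1 hp))) M
    set N := (((range M).filter (fun i : ℕ => ((∏ p ∈ D, p : ℕ) : ℤ) ∣ α * i + β)).card : ℝ)
    have hprod : ∏ p ∈ D, (-u * (1 / (p:ℝ))) = (-u) ^ D.card * (1 / ((∏ p ∈ D, p : ℕ) : ℝ)) := by
      rw [Finset.prod_mul_distrib, Finset.prod_const]
      push_cast
      rw [Finset.prod_div_distrib]
      simp
    rw [hprod]
    have h1 : |(-u) ^ D.card| ≤ 1 := by
      rw [abs_pow, abs_neg, abs_of_nonneg hu0]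
      exact pow_le_one₀ hu0 hu1
    have h2 : N * (-u) ^ D.card - M * ((-u) ^ D.card * (1 / ((∏ p ∈ D, p : ℕ) : ℝ))) =
        (N - M / ((∏ p ∈ D, p : ℕ) : ℝ)) * (-u) ^ D.card := by ring
    have h3 : |(N - M / ((∏ p ∈ D, p : ℕ) : ℝ)) * (-u) ^ D.card| ≤ 1 := by
      rw [abs_mul]
      exact mul_le_one₀ hc (abs_nonneg _) h1
    have h4 := le_abs_self ((N - M / ((∏ p ∈ D, p : ℕ) : ℝ)) * (-u) ^ D.card)
    linarith
  have step4 := Finset.sum_le_sum step3
  refine step4.trans ?_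
  rw [Finset.sum_add_distrib, ← Finset.mul_sum]
  -- Step 3: number of small subsets
  have hq : (1:ℝ) ≤ Q.card := by exact_mod_cast hne.card_pos
  have hcardsub : ∑ D ∈ Q.powerset.filter (fun D => D.card ≤ r), (1:ℝ) ≤ 3 * (Q.card : ℝ) ^ r := by
    have h1 : ∀ D ∈ Q.powerset.filter (fun D => D.card ≤ r), (1:ℝ) ≤
        (Q.card : ℝ) ^ r * ∏ p ∈ D, (1 / (Q.card : ℝ)) := by
      intro D hD
      rw [Finset.mem_filter] at hD
      rw [Finset.prod_const, one_div, inv_pow, ← div_eq_mul_inv, le_div_iff₀ (by positivity),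
        one_mul]
      exact pow_le_pow_right₀ hq hD.2
    refine (Finset.sum_le_sum h1).trans ?_
    have h2 : ∑ D ∈ Q.powerset.filter (fun D => D.card ≤ r),
        (Q.card : ℝ) ^ r * ∏ p ∈ D, (1 / (Q.card : ℝ)) ≤
        ∑ D ∈ Q.powerset, (Q.card : ℝ) ^ r * ∏ p ∈ D, (1 / (Q.card : ℝ)) := by
      apply Finset.sum_le_sum_of_subset_of_nonneg (Finset.filter_subset _ _)
      intro D _ _
      positivity
    refine h2.trans ?_
    rw [← Finset.mul_sum, ← Finset.prod_one_add, mul_comm 3]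
    apply mul_le_mul_of_nonneg_left _ (by positivity)
    rw [Finset.prod_const]
    have h3 : (1 + 1 / (Q.card:ℝ)) ≤ exp (1 / (Q.card:ℝ)) := by
      have := Real.add_one_le_exp (1 / (Q.card:ℝ))
      linarith
    have h4 : (1 + 1 / (Q.card:ℝ)) ^ Q.card ≤ (exp (1 / (Q.card:ℝ))) ^ Q.card :=
      pow_le_pow_left₀ (by positivity) h3 _
    refine h4.trans ?_
    rw [← Real.exp_nat_mul]
    have h5 : (Q.card:ℝ) * (1 / (Q.card:ℝ)) = 1 := by field_simp
    rw [h5]
    have := Real.exp_one_lt_d9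
    linarith
  -- Step 4: main term
  have hmain : ∑ D ∈ Q.powerset.filter (fun D => D.card ≤ r), ∏ p ∈ D, (-u * (1 / (p:ℝ))) ≤
      exp (-(u * S)) + exp (3 * S - r) := by
    have hsplit := Finset.sum_filter_add_sum_filter_not Q.powerset (fun D => D.card ≤ r)
      (fun D => ∏ p ∈ D, (-u * (1 / (p:ℝ))))
    have hfull : ∑ D ∈ Q.powerset, ∏ p ∈ D, (-u * (1 / (p:ℝ))) ≤ exp (-(u * S)) := by
      rw [← Finset.prod_one_add]
      have h1 : ∏ p ∈ Q, (1 + -u * (1 / (p:ℝ))) ≤ ∏ p ∈ Q, exp (-u * (1 / (p:ℝ))) := by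
        apply Finset.prod_le_prod
        · intro p hp
          have : (2:ℝ) ≤ p := by exact_mod_cast (hQ p hp).two_le
          have h2 : 1 / (p:ℝ) ≤ 1 := by rw [div_le_one (by linarith)]; linarith
          have h3 : 0 ≤ 1 / (p:ℝ) := by positivity
          nlinarith
        · intro p _
          have := Real.add_one_le_exp (-u * (1 / (p:ℝ)))
          linarith
      refine h1.trans (le_of_eq ?_)
      rw [← Real.exp_sum, ← Finset.mul_sum]
      congr 1
      rw [hS]; ring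
    have htail : -∑ D ∈ Q.powerset.filter (fun D => ¬ D.card ≤ r), ∏ p ∈ D, (-u * (1 / (p:ℝ))) ≤
        exp (3 * S - r) := by
      rw [← Finset.sum_neg_distrib]
      have h1 : ∀ D ∈ Q.powerset.filter (fun D => ¬ D.card ≤ r),
          -∏ p ∈ D, (-u * (1 / (p:ℝ))) ≤ exp (-r) * ∏ p ∈ D, (exp 1 * (1 / (p:ℝ))) := by
        intro D hD
        rw [Finset.mem_filter] at hD
        have hr' : r ≤ D.card := by omega
        have h2 : |∏ p ∈ D, (-u * (1 / (p:ℝ)))| ≤ ∏ p ∈ D, (1 / (p:ℝ)) := by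
          rw [Finset.abs_prod]
          apply Finset.prod_le_prod
          · intro p _; positivity
          · intro p _
            rw [abs_mul, abs_neg, abs_of_nonneg hu0, abs_of_nonneg (by positivity : (0:ℝ) ≤ 1 / p)]
            have : (0:ℝ) ≤ 1 / p := by positivity
            nlinarith
        have h3 : ∏ p ∈ D, (exp 1 * (1 / (p:ℝ))) = exp D.card * ∏ p ∈ D, (1 / (p:ℝ)) := by
          rw [Finset.prod_mul_distrib, Finset.prod_const, ← Real.exp_nat_mul, mul_one]
        rw [h3, ← mul_assoc, ← Real.exp_add]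
        have h4 : (1:ℝ) ≤ exp (-r + D.card) := by
          apply Real.one_le_exp
          have : (r:ℝ) ≤ D.card := by exact_mod_cast hr'
          linarith
        have h5 : 0 ≤ ∏ p ∈ D, (1 / (p:ℝ)) := Finset.prod_nonneg (fun p _ => by positivity)
        have h6 := neg_le_abs (∏ p ∈ D, (-u * (1 / (p:ℝ))))
        nlinarith
      refine (Finset.sum_le_sum h1).trans ?_
      have h2 : ∑ D ∈ Q.powerset.filter (fun D => ¬ D.card ≤ r),
          exp (-(r:ℝ)) * ∏ p ∈ D, (exp 1 * (1 / (p:ℝ))) ≤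
          ∑ D ∈ Q.powerset, exp (-(r:ℝ)) * ∏ p ∈ D, (exp 1 * (1 / (p:ℝ))) := by
        apply Finset.sum_le_sum_of_subset_of_nonneg (Finset.filter_subset _ _)
        intro D _ _
        apply mul_nonneg (Real.exp_pos _).le
        exact Finset.prod_nonneg (fun p _ => by positivity)
      refine h2.trans ?_
      rw [← Finset.mul_sum, ← Finset.prod_one_add]
      have h3 : ∏ p ∈ Q, (1 + exp 1 * (1 / (p:ℝ))) ≤ exp (3 * S) := by
        have h4 : ∏ p ∈ Q, (1 + exp 1 * (1 / (p:ℝ))) ≤ ∏ p ∈ Q, exp (3 * (1 / (p:ℝ))) := by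
          apply Finset.prod_le_prod
          · intro p _; positivity
          · intro p _
            have h5 := Real.add_one_le_exp (3 * (1 / (p:ℝ)))
            have h6 := Real.exp_one_lt_d9
            have h7 : (0:ℝ) ≤ 1 / p := by positivity
            nlinarith
        refine h4.trans (le_of_eq ?_)
        rw [← Real.exp_sum, ← Finset.mul_sum]
      calc exp (-(r:ℝ)) * ∏ p ∈ Q, (1 + exp 1 * (1 / (p:ℝ)))
          ≤ exp (-(r:ℝ)) * exp (3 * S) := mul_le_mul_of_nonneg_left h3 (Real.exp_pos _).le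
        _ = exp (3 * S - r) := by rw [← Real.exp_add]; ring_nf
    linarith
  have hM : (0:ℝ) ≤ M := by positivity
  have := mul_le_mul_of_nonneg_left hmain hM
  linarith

end Sieve

namespace Choice

open Finset

/-- Derandomisation: choosing residues one prime at a time. -/
theorem exists_choice {ι : Type*} (I : Finset ι) (P : Finset ℕ) (g : ℕ → ℕ → ι → ℝ)
    (G : ℕ → ι → ℝ) (hg : ∀ p b i, 0 ≤ g p b i) (hG : ∀ p ∈ P, ∀ i ∈ I, 0 ≤ G p i)
    (havg : ∀ p ∈ P, ∀ w : ι → ℝ, (∀ i ∈ I, 0 ≤ w i) →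
      ∃ b, ∑ i ∈ I, w i * g p b i ≤ ∑ i ∈ I, w i * G p i) :
    ∀ v : ι → ℝ, (∀ i ∈ I, 0 ≤ v i) →
      ∃ b : ℕ → ℕ, ∑ i ∈ I, v i * ∏ p ∈ P, g p (b p) i ≤ ∑ i ∈ I, v i * ∏ p ∈ P, G p i := by
  classical
  induction P using Finset.induction_on with
  | empty =>
    intro v _
    exact ⟨fun _ => 0, by simp⟩
  | insert p P hp ih =>
    intro v hv
    have hG' : ∀ q ∈ P, ∀ i ∈ I, 0 ≤ G q i := fun q hq => hG q (Finset.mem_insert_of_mem hq)
    have havg' : ∀ q ∈ P, ∀ w : ι → ℝ, (∀ i ∈ I, 0 ≤ w i) →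
      ∃ b, ∑ i ∈ I, w i * g q b i ≤ ∑ i ∈ I, w i * G q i :=
      fun q hq => havg q (Finset.mem_insert_of_mem hq)
    obtain ⟨b0, hb0⟩ := havg p (Finset.mem_insert_self _ _) (fun i => v i * ∏ q ∈ P, G q i)
      (fun i hi => mul_nonneg (hv i hi) (Finset.prod_nonneg (fun q hq => hG' q hq i hi)))
    obtain ⟨b, hb⟩ := ih hG' havg' (fun i => v i * g p b0 i)
      (fun i hi => mul_nonneg (hv i hi) (hg _ _ _))
    refine ⟨fun q => if q = p then b0 else b q, ?_⟩
    have h1 : ∑ i ∈ I, v i * ∏ q ∈ insert p P, g q (if q = p then b0 else b q) i =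
        ∑ i ∈ I, v i * g p b0 i * ∏ q ∈ P, g q (b q) i := by
      apply Finset.sum_congr rfl
      intro i _
      rw [Finset.prod_insert hp, if_pos rfl, mul_assoc]
      congr 2
      apply Finset.prod_congr rfl
      intro q hq
      have : q ≠ p := fun h => hp (h ▸ hq)
      rw [if_neg this]
    have h2 : ∑ i ∈ I, v i * ∏ q ∈ insert p P, G q i =
        ∑ i ∈ I, (v i * ∏ q ∈ P, G q i) * G p i := by
      apply Finset.sum_congr rfl
      intro i _
      rw [Finset.prod_insert hp]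
      ring
    have h3 : ∑ i ∈ I, (v i * ∏ q ∈ P, G q i) * g p b0 i =
        ∑ i ∈ I, v i * g p b0 i * ∏ q ∈ P, G q i := by
      apply Finset.sum_congr rfl
      intro i _
      ring
    rw [h1, h2]
    refine hb.trans ?_
    rw [← h3]
    exact hb0

/-- The set of parameters `(a, j, k, s)`. -/
def combos (K₀ : ℕ) : Finset (ℕ × ℕ × ℕ × ℤ) :=
  (Icc 2 K₀) ×ˢ (Icc 1 K₀) ×ˢ (Icc 1 K₀) ×ˢ ({1, -1} : Finset ℤ)

theorem mem_combos {K₀ a j k : ℕ} {s : ℤ} : (a, j, k, s) ∈ combos K₀ ↔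
    (2 ≤ a ∧ a ≤ K₀) ∧ (1 ≤ j ∧ j ≤ K₀) ∧ (1 ≤ k ∧ k ≤ K₀) ∧ (s = 1 ∨ s = -1) := by
  simp [combos]

theorem card_combos (K₀ : ℕ) (hK : 2 ≤ K₀) : (combos K₀).card ≤ 2 * K₀ ^ 3 := by
  unfold combos
  rw [Finset.card_product, Finset.card_product, Finset.card_product]
  simp only [Nat.card_Icc]
  have : ({1, -1} : Finset ℤ).card = 2 := by decide
  rw [this]
  have h1 : K₀ + 1 - 2 ≤ K₀ := by omega
  have h2 : K₀ + 1 - 1 = K₀ := by omega
  rw [h2]
  calc (K₀ + 1 - 2) * (K₀ * (K₀ * 2)) ≤ K₀ * (K₀ * (K₀ * 2)) := Nat.mul_le_mul_right _ h1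
    _ = 2 * K₀ ^ 3 := by ring

theorem combos_nonempty {K₀ : ℕ} (hK : 2 ≤ K₀) : (combos K₀).Nonempty :=
  ⟨(2, 1, 1, 1), by rw [mem_combos]; refine ⟨⟨le_refl _, hK⟩, ⟨le_refl _, by omega⟩,
    ⟨le_refl _, by omega⟩, Or.inl rfl⟩⟩

/-- the linear form -/
def form (n : ℤ) (c : ℕ × ℕ × ℕ × ℤ) (h : ℕ) : ℤ :=
  n * c.2.1 + c.2.2.2 * (c.1 : ℤ) ^ h * c.2.2.1

/-- local averaging at one prime -/
theorem local_avg {K₀ p : ℕ} (hK : 2 ≤ K₀) (hp : p.Prime) (hpK : K₀ < p) (y : ℝ) (hy0 : 0 ≤ y)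
    (hy1 : y ≤ 1) (I : Finset ((ℕ × ℕ × ℕ × ℤ) × ℕ)) (hI : ∀ i ∈ I, i.1 ∈ combos K₀)
    (w : (ℕ × ℕ × ℕ × ℤ) × ℕ → ℝ) (hw : ∀ i ∈ I, 0 ≤ w i) :
    ∃ b : ℕ, ∑ i ∈ I, w i * (if (p : ℤ) ∣ form b i.1 i.2 then y else 1) ≤
      ∑ i ∈ I, w i * (1 - (1 - y) / ((combos K₀).card * orderOf ((i.1.1 : ℕ) : ZMod p))) := by
  classical
  have : Fact p.Prime := ⟨hp⟩
  set C := combos K₀ with hC
  have hCpos : 0 < C.card := (combos_nonempty hK).card_pos
  have hp2 := hp.two_le
  have hp1 : 0 < p - 1 := by omega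
  -- sample space
  let Ω := C ×ˢ range (p - 1)
  have hΩ : Ω.Nonempty := (combos_nonempty hK).product ⟨0, Finset.mem_range.mpr hp1⟩
  let f : (ℕ × ℕ × ℕ × ℤ) × ℕ → ℕ := fun ω =>
    (-(ω.1.2.2.2 : ZMod p) * (ω.1.1 : ZMod p) ^ ω.2 * (ω.1.2.2.1 : ZMod p) *
      ((ω.1.2.1 : ZMod p))⁻¹).val
  have hcast : ∀ ω, ((f ω : ℕ) : ZMod p) = -(ω.1.2.2.2 : ZMod p) * (ω.1.1 : ZMod p) ^ ω.2 *
      (ω.1.2.2.1 : ZMod p) * ((ω.1.2.1 : ZMod p))⁻¹ := by
    intro ω
    simp only [f]
    rw [ZMod.natCast_val, ZMod.cast_id]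
  have hunit : ∀ m : ℕ, 1 ≤ m → m ≤ K₀ → (m : ZMod p) ≠ 0 := by
    intro m hm1 hm2 h0
    rw [ZMod.natCast_eq_zero_iff] at h0
    have := Nat.le_of_dvd (by omega) h0
    omega
  have hcount : ∀ i ∈ I, ∑ ω ∈ Ω, (if (p : ℤ) ∣ form (f ω) i.1 i.2 then y else (1:ℝ)) ≤
      Ω.card * (1 - (1 - y) / (C.card * orderOf ((i.1.1 : ℕ) : ZMod p))) := by
    rintro ⟨⟨a, j, k, s⟩, h⟩ hi
    have hic := hI _ hi
    simp only at hic
    have hmem := mem_combos.mp hic
    obtain ⟨⟨ha2, haK⟩, ⟨hj1, hjK⟩, ⟨hk1, hkK⟩, hs⟩ := hmem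
    have ha0 := hunit a (by omega) haK
    have hj0 := hunit j hj1 hjK
    have hk0 := hunit k hk1 hkK
    have hs0 : (s : ZMod p) ≠ 0 := by
      rcases hs with rfl | rfl <;> simp
    simp only
    set o := orderOf ((a : ℕ) : ZMod p) with ho
    have hodvd : o ∣ p - 1 := by
      rw [ho]
      exact ZMod.orderOf_dvd_card_sub_one ha0
    have hopos : 0 < o := Nat.pos_of_dvd_of_pos hodvd hp1
    -- bad set contains (c, r) with r ≡ h mod o
    have hsub : ((range (p - 1)).filter (fun r => r ≡ h [MOD o])).card ≤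
        (Ω.filter (fun ω => (p : ℤ) ∣ form (f ω) (a, j, k, s) h)).card := by
      apply Finset.card_le_card_of_injOn (fun r => (((a, j, k, s) : ℕ × ℕ × ℕ × ℤ), r))
      · intro r hr
        simp only [Finset.coe_filter, Finset.mem_range, Set.mem_ofPred_eq] at hr
        simp only [Finset.coe_filter, Set.mem_ofPred_eq]
        refine ⟨Finset.mem_product.mpr ⟨hic, Finset.mem_range.mpr hr.1⟩, ?_⟩
        rw [← ZMod.intCast_zmod_eq_zero_iff_dvd]
        unfold form
        push_cast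
        rw [hcast]
        simp only
        have hpow : (a : ZMod p) ^ r = (a : ZMod p) ^ h := by
          rw [← pow_mod_orderOf, ← pow_mod_orderOf (a : ZMod p) h]
          congr 1
          exact hr.2
        rw [hpow]
        field_simp
        ring
      · intro r1 _ r2 _ h12
        simpa using h12
    have hcnt : ((range (p - 1)).filter (fun r => r ≡ h [MOD o])).card = (p - 1) / o := by
      rw [← Nat.count_eq_card_filter_range, Nat.count_modEq_card _ hopos]
      have : (p - 1) % o = 0 := Nat.mod_eq_zero_of_dvd hodvd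
      rw [this]
      simp
    rw [hcnt] at hsub
    have hΩc : (Ω.card : ℝ) = C.card * ((p - 1 : ℕ) : ℝ) := by
      simp only [Ω]
      rw [Finset.card_product, Finset.card_range]
      push_cast
      ring
    have hsum : ∑ ω ∈ Ω, (if (p : ℤ) ∣ form (f ω) (a, j, k, s) h then y else (1:ℝ)) =
        Ω.card - (1 - y) * (Ω.filter (fun ω => (p : ℤ) ∣ form (f ω) (a, j, k, s) h)).card := by
      have : ∀ ω ∈ Ω, (if (p : ℤ) ∣ form (f ω) (a, j, k, s) h then y else (1:ℝ)) =
          1 - (1 - y) * (if (p : ℤ) ∣ form (f ω) (a, j, k, s) h then 1 else 0) := by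
        intro ω _
        split_ifs <;> ring
      rw [Finset.sum_congr rfl this, Finset.sum_sub_distrib, ← Finset.mul_sum]
      simp
    rw [hsum]
    have hoR : (0:ℝ) < o := by exact_mod_cast hopos
    have hCR : (0:ℝ) < C.card := by exact_mod_cast hCpos
    have hdiv : (((p - 1) / o : ℕ) : ℝ) = ((p - 1 : ℕ) : ℝ) / o := by
      rw [Nat.cast_div hodvd (by exact_mod_cast hopos.ne')]
    have h1 : ((p - 1 : ℕ) : ℝ) / o ≤
        (Ω.filter (fun ω => (p : ℤ) ∣ form (f ω) (a, j, k, s) h)).card := by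
      rw [← hdiv]; exact_mod_cast hsub
    have h2 : (Ω.card : ℝ) * (1 - (1 - y) / (C.card * o)) =
        Ω.card - (1 - y) * (((p - 1 : ℕ) : ℝ) / o) := by
      rw [hΩc]
      field_simp
    rw [h2]
    have := mul_le_mul_of_nonneg_left h1 (by linarith : 0 ≤ 1 - y)
    linarith
  -- averaging
  have hΩR : (0:ℝ) < Ω.card := by exact_mod_cast hΩ.card_pos
  by_contra hcon
  push Not at hcon
  have hlt : ∑ ω ∈ Ω, ∑ i ∈ I, w i * (1 - (1 - y) / (C.card * orderOf ((i.1.1 : ℕ) : ZMod p))) <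
      ∑ ω ∈ Ω, ∑ i ∈ I, w i * (if (p : ℤ) ∣ form (f ω) i.1 i.2 then y else 1) :=
    Finset.sum_lt_sum_of_nonempty hΩ (fun ω _ => hcon (f ω))
  rw [Finset.sum_const, Finset.sum_comm, nsmul_eq_mul, Finset.mul_sum] at hlt
  have hle : ∑ i ∈ I, ∑ ω ∈ Ω, w i * (if (p : ℤ) ∣ form (f ω) i.1 i.2 then y else 1) ≤
      ∑ i ∈ I, (Ω.card : ℝ) * (w i * (1 - (1 - y) / (C.card * orderOf ((i.1.1 : ℕ) : ZMod p)))) := by
    apply Finset.sum_le_sum
    intro i hi
    rw [← Finset.mul_sum]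
    have := mul_le_mul_of_nonneg_left (hcount i hi) (hw i hi)
    calc w i * ∑ ω ∈ Ω, (if (p : ℤ) ∣ form (f ω) i.1 i.2 then y else 1) ≤ _ := this
      _ = _ := by ring
  linarith

/-- Existence of the residue class. -/
theorem exists_residue {K₀ : ℕ} (hK : 2 ≤ K₀) (P : Finset ℕ) (hP : ∀ p ∈ P, p.Prime ∧ K₀ < p)
    (y : ℝ) (hy0 : 0 ≤ y) (hy1 : y ≤ 1) (I : Finset ((ℕ × ℕ × ℕ × ℤ) × ℕ))
    (hI : ∀ i ∈ I, i.1 ∈ combos K₀) :
    ∃ B : ℕ, ∑ i ∈ I, y ^ (P.filter (fun p : ℕ => (p : ℤ) ∣ form B i.1 i.2)).card ≤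
      ∑ i ∈ I, ∏ p ∈ P, (1 - (1 - y) / ((combos K₀).card * orderOf ((i.1.1 : ℕ) : ZMod p))) := by
  classical
  have hnn : ∀ p ∈ P, ∀ i ∈ I, (0:ℝ) ≤
      (1 - (1 - y) / ((combos K₀).card * orderOf ((i.1.1 : ℕ) : ZMod p))) := by
    intro p hp i _
    have hC : (1:ℝ) ≤ (combos K₀).card := by exact_mod_cast (combos_nonempty hK).card_pos
    rcases Nat.eq_zero_or_pos (orderOf ((i.1.1 : ℕ) : ZMod p)) with h0 | h0
    · rw [h0]; simp
    · have h1 : (1:ℝ) ≤ orderOf ((i.1.1 : ℕ) : ZMod p) := by exact_mod_cast h0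
      have h2 : (1:ℝ) ≤ (combos K₀).card * orderOf ((i.1.1 : ℕ) : ZMod p) := by nlinarith
      have : (1 - y) / ((combos K₀).card * orderOf ((i.1.1 : ℕ) : ZMod p)) ≤ 1 := by
        rw [div_le_one (by linarith)]
        linarith
      linarith
  obtain ⟨b, hb⟩ := exists_choice I P
    (fun p b i => if (p : ℤ) ∣ form b i.1 i.2 then y else 1)
    (fun p i => 1 - (1 - y) / ((combos K₀).card * orderOf ((i.1.1 : ℕ) : ZMod p)))
    (by intro p b i; split_ifs <;> linarith) hnn
    (by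
      intro p hp w hw
      exact local_avg hK (hP p hp).1 (hP p hp).2 y hy0 hy1 I hI w hw)
    (fun _ => 1) (by intro i _; norm_num)
  -- CRT
  have hcrt := Nat.chineseRemainderOfFinset b (fun p => p) P
    (fun p hp => (hP p hp).1.ne_zero)
    (by
      intro p hp q hq hpq
      exact (Nat.coprime_primes (hP p hp).1 (hP q hq).1).mpr hpq)
  obtain ⟨B, hB⟩ := hcrt
  refine ⟨B, ?_⟩
  simp only [one_mul] at hb
  refine le_trans (le_of_eq ?_) hb
  apply Finset.sum_congr rfl
  intro i _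
  rw [Finset.prod_ite, Finset.prod_const, Finset.prod_const_one, mul_one]
  congr 2
  apply Finset.filter_congr
  intro p hp
  have h1 : ((B : ℤ)) ≡ (b p : ℤ) [ZMOD p] := Int.natCast_modEq_iff.mpr (hB p hp)
  have h2 : (p : ℤ) ∣ (b p : ℤ) - B := Int.modEq_iff_dvd.mp h1
  have h3 : form (b p) i.1 i.2 = form B i.1 i.2 + ((b p : ℤ) - B) * i.1.2.1 := by
    unfold form; ring
  rw [h3]
  exact (dvd_add_left (Dvd.dvd.mul_right h2 _)).symm

end Choice

namespace Assembly

open Finset Real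
open Choice

/-- the product whose large prime factors are used for the covering -/
def bigProd (K₀ T : ℕ) : ℕ := ∏ a ∈ Icc 2 K₀, ∏ t ∈ Icc 1 T, (a ^ (2 * t) - 1)

/-- covering primes -/
def PP (K₀ T : ℕ) : Finset ℕ := (bigProd K₀ T).primeFactors.filter (fun p => K₀ < p)

/-- sieving primes -/
def QQ (K₀ T z : ℕ) : Finset ℕ := (Nat.primesLE z).filter (fun p => K₀ < p ∧ p ∉ PP K₀ T)

/-- the modulus -/
def WW (K₀ T : ℕ) : ℕ := ∏ p ∈ PP K₀ T, p

theorem bigProd_pos (K₀ T : ℕ) : 0 < bigProd K₀ T := by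
  unfold bigProd
  apply Finset.prod_pos
  intro a ha
  apply Finset.prod_pos
  intro t ht
  rw [Finset.mem_Icc] at ha ht
  have : 1 < a ^ (2 * t) := Nat.one_lt_pow (by omega) (by omega)
  omega

theorem PP_prime {K₀ T p : ℕ} (hp : p ∈ PP K₀ T) : p.Prime ∧ K₀ < p := by
  unfold PP at hp
  rw [Finset.mem_filter] at hp
  exact ⟨Nat.prime_of_mem_primeFactors hp.1, hp.2⟩

theorem QQ_prime {K₀ T z p : ℕ} (hp : p ∈ QQ K₀ T z) : p.Prime ∧ K₀ < p ∧ p ∉ PP K₀ T := by
  unfold QQ at hp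
  rw [Finset.mem_filter] at hp
  exact ⟨Nat.prime_of_mem_primesLE hp.1, hp.2⟩

theorem WW_pos (K₀ T : ℕ) : 0 < WW K₀ T :=
  Finset.prod_pos (fun _ hp => (PP_prime hp).1.pos)

theorem bigProd_le (K₀ T : ℕ) (hK : 2 ≤ K₀) : bigProd K₀ T ≤ K₀ ^ (2 * K₀ * T ^ 2) := by
  unfold bigProd
  calc ∏ a ∈ Icc 2 K₀, ∏ t ∈ Icc 1 T, (a ^ (2 * t) - 1)
      ≤ ∏ a ∈ Icc 2 K₀, ∏ t ∈ Icc 1 T, K₀ ^ (2 * T) := by
        apply Finset.prod_le_prod'
        intro a ha
        apply Finset.prod_le_prod'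
        intro t ht
        rw [Finset.mem_Icc] at ha ht
        calc a ^ (2 * t) - 1 ≤ a ^ (2 * t) := Nat.sub_le _ _
          _ ≤ K₀ ^ (2 * t) := Nat.pow_le_pow_left ha.2 _
          _ ≤ K₀ ^ (2 * T) := Nat.pow_le_pow_right (by omega) (by omega)
    _ = K₀ ^ (2 * T * T * (K₀ - 1)) := by
        rw [Finset.prod_const, Finset.prod_const, Nat.card_Icc, Nat.card_Icc, ← pow_mul, ← pow_mul]
        congr 1
        have : K₀ + 1 - 2 = K₀ - 1 := by omega
        rw [this, Nat.add_sub_cancel]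
        ring
    _ ≤ K₀ ^ (2 * K₀ * T ^ 2) := by
        apply Nat.pow_le_pow_right (by omega)
        calc 2 * T * T * (K₀ - 1) ≤ 2 * T * T * K₀ := Nat.mul_le_mul_left _ (Nat.sub_le _ _)
          _ = 2 * K₀ * T ^ 2 := by ring

theorem WW_le (K₀ T : ℕ) (hK : 2 ≤ K₀) : WW K₀ T ≤ K₀ ^ (2 * K₀ * T ^ 2) := by
  refine le_trans ?_ (bigProd_le K₀ T hK)
  unfold WW PP
  apply Nat.le_of_dvd (bigProd_pos K₀ T)
  refine dvd_trans (Finset.prod_dvd_prod_of_subset _ (bigProd K₀ T).primeFactors _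
    (Finset.filter_subset _ _)) (Nat.prod_primeFactors_dvd _)

theorem two_pow_card_PP (K₀ T : ℕ) : 2 ^ (PP K₀ T).card ≤ WW K₀ T := by
  unfold WW
  rw [← Finset.prod_const]
  exact Finset.prod_le_prod' (fun p hp => (PP_prime hp).1.two_le)

/-- lower bound for the sum of reciprocals of orders -/
theorem order_sum {K₀ T a : ℕ} (ha : 2 ≤ a) (haK : a ≤ K₀) :
    ∑ t ∈ Icc K₀ T, (1:ℝ) / (2 * t) ≤
      ∑ p ∈ PP K₀ T, (1:ℝ) / orderOf ((a : ℕ) : ZMod p) := by
  classical
  choose! q hq using fun t (ht : 2 ≤ t) => Zsig.exists_prime_order ha ht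
  have hmem : ∀ t ∈ Icc K₀ T, q t ∈ PP K₀ T := by
    intro t ht
    rw [Finset.mem_Icc] at ht
    obtain ⟨hp, ho⟩ := hq t (by omega)
    have : Fact (q t).Prime := ⟨hp⟩
    have ht0 : 0 < t := by omega
    unfold PP
    rw [Finset.mem_filter]
    have hne : (((a ^ 2 : ℕ) : ZMod (q t))) ≠ 0 := by
      intro h0
      rw [h0] at ho
      have : orderOf (0 : ZMod (q t)) = 0 := by
        rw [orderOf_eq_zero_iff']
        intro n hn
        rw [zero_pow (by omega)]
        exact zero_ne_one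
      omega
    have hdvd : t ∣ q t - 1 := by
      have := ZMod.orderOf_dvd_card_sub_one hne
      rwa [ho] at this
    have hqt : t < q t := by
      have h2 := hp.two_le
      have := Nat.le_of_dvd (by omega) hdvd
      omega
    constructor
    · rw [Nat.mem_primeFactors]
      refine ⟨hp, ?_, (bigProd_pos K₀ T).ne'⟩
      have h1 : q t ∣ a ^ (2 * t) - 1 := by
        have hpow : (((a ^ 2 : ℕ) : ZMod (q t))) ^ t = 1 :=
          orderOf_dvd_iff_pow_eq_one.mp (by rw [ho])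
        have h2 : ((a ^ (2 * t) - 1 : ℕ) : ZMod (q t)) = 0 := by
          rw [Nat.cast_sub (Nat.one_le_pow _ _ (by omega))]
          push_cast at hpow ⊢
          rw [pow_mul, hpow]
          ring
        exact (ZMod.natCast_eq_zero_iff _ _).mp h2
      refine dvd_trans h1 ?_
      unfold bigProd
      refine dvd_trans ?_ (Finset.dvd_prod_of_mem (fun a => ∏ t ∈ Icc 1 T, (a ^ (2 * t) - 1))
        (Finset.mem_Icc.mpr ⟨ha, haK⟩))
      exact Finset.dvd_prod_of_mem (fun t => a ^ (2 * t) - 1) (Finset.mem_Icc.mpr ⟨ht0, ht.2⟩)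
    · omega
  have hinj : Set.InjOn q (Icc K₀ T : Finset ℕ) := by
    intro t ht t' ht' h
    rw [Finset.mem_coe, Finset.mem_Icc] at ht ht'
    have h1 := (hq t (by omega)).2
    have h2 := (hq t' (by omega)).2
    rw [h] at h1
    omega
  have h1 : ∑ t ∈ Icc K₀ T, (1:ℝ) / (2 * t) ≤
      ∑ t ∈ Icc K₀ T, (1:ℝ) / orderOf ((a : ℕ) : ZMod (q t)) := by
    apply Finset.sum_le_sum
    intro t ht
    rw [Finset.mem_Icc] at ht
    obtain ⟨hp, ho⟩ := hq t (by omega)
    have : Fact (q t).Prime := ⟨hp⟩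
    have ht0 : 0 < t := by omega
    have hpow : ((a : ℕ) : ZMod (q t)) ^ (2 * t) = 1 := by
      have hpow : (((a ^ 2 : ℕ) : ZMod (q t))) ^ t = 1 :=
        orderOf_dvd_iff_pow_eq_one.mp (by rw [ho])
      push_cast at hpow
      rw [pow_mul, hpow]
    have hdvd := orderOf_dvd_of_pow_eq_one hpow
    have hle := Nat.le_of_dvd (by omega) hdvd
    have hpos : 0 < orderOf ((a : ℕ) : ZMod (q t)) := Nat.pos_of_dvd_of_pos hdvd (by omega)
    apply one_div_le_one_div_of_le
    · exact_mod_cast hpos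
    · exact_mod_cast hle
  refine h1.trans ?_
  rw [← Finset.sum_image (f := fun p => (1:ℝ) / orderOf ((a : ℕ) : ZMod p)) hinj]
  apply Finset.sum_le_sum_of_subset_of_nonneg
  · intro p hp
    rw [Finset.mem_image] at hp
    obtain ⟨t, ht, rfl⟩ := hp
    exact hmem t ht
  · intro p _ _
    positivity

/-- The finite form of the main theorem. -/
theorem finite_form (K₀ T z H M r : ℕ) (hK : 2 ≤ K₀) (hr : Even r) (u L : ℝ)
    (hu0' : 0 < u) (hu1 : u < 1) (x₀ : ℤ) (hQ : (QQ K₀ T z).Nonempty)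
    (hstar : (M * (exp (-(u * ∑ p ∈ QQ K₀ T z, (1:ℝ) / p)) +
        exp (3 * (∑ p ∈ QQ K₀ T z, (1:ℝ) / p) - r)) + 3 * ((QQ K₀ T z).card : ℝ) ^ r) *
        (((combos K₀).card * H : ℕ) *
        exp (-(u / (combos K₀).card * ∑ t ∈ Icc K₀ T, (1:ℝ) / (2 * t)))) ≤
        (M / 2) * (1 - u) ^ L) :
    ∃ G : Finset ℤ, (M:ℝ) / 2 - ((combos K₀).card * H : ℕ) ≤ G.card ∧
      ∀ n ∈ G, x₀ ≤ n ∧ n < x₀ + WW K₀ T * M ∧ ∀ c ∈ combos K₀, ∀ h < H,
        L ≤ (form n c h).natAbs.primeFactors.card := by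
  classical
  have hu0 : 0 ≤ u := hu0'.le
  set P := PP K₀ T with hPdef
  set Q := QQ K₀ T z with hQdef
  set W := WW K₀ T with hWdef
  set C := combos K₀ with hCdef
  set y : ℝ := 1 - u with hy
  have hy0 : 0 < y := by linarith
  have hy1 : y ≤ 1 := by linarith
  set I : Finset ((ℕ × ℕ × ℕ × ℤ) × ℕ) := C ×ˢ range H with hI
  have hIcard : I.card = C.card * H := by rw [hI, Finset.card_product, Finset.card_range]
  have hImem : ∀ i ∈ I, i.1 ∈ C := fun i hi => (Finset.mem_product.mp hi).1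
  obtain ⟨B, hB⟩ := exists_residue hK P (fun p hp => PP_prime hp) y hy0.le hy1 I hImem
  have hWpos : (0:ℤ) < W := by exact_mod_cast WW_pos K₀ T
  -- base point
  set B' : ℤ := x₀ + ((B : ℤ) - x₀) % W with hB'
  have hB'mod : (W : ℤ) ∣ B' - B := by
    have h1 : (W : ℤ) ∣ ((B : ℤ) - x₀) - ((B : ℤ) - x₀) % W := Int.dvd_self_sub_emod
    have h2 : B' - B = -(((B : ℤ) - x₀) - ((B : ℤ) - x₀) % W) := by rw [hB']; ring
    rw [h2]; exact (dvd_neg).mpr h1
  have hB'lo : x₀ ≤ B' := by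
    have := Int.emod_nonneg ((B : ℤ) - x₀) hWpos.ne'
    linarith
  have hB'hi : B' < x₀ + W := by
    have := Int.emod_lt_of_pos ((B : ℤ) - x₀) hWpos
    linarith
  -- prime divisibility facts
  have hPW : ∀ p ∈ P, (p : ℤ) ∣ W := by
    intro p hp
    have : p ∣ WW K₀ T := Finset.dvd_prod_of_mem _ hp
    exact_mod_cast this
  have hQW : ∀ p ∈ Q, ¬ (p : ℤ) ∣ W := by
    intro p hp hdvd
    have h1 : p ∣ WW K₀ T := by exact_mod_cast hdvd
    unfold WW at h1
    have hpp := QQ_prime hp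
    rw [Prime.dvd_finsetProd_iff hpp.1.prime] at h1
    obtain ⟨q, hq, hpq⟩ := h1
    have : p = q := (Nat.prime_dvd_prime_iff_eq hpp.1 (PP_prime hq).1).mp hpq
    exact hpp.2.2 (this ▸ hq)
  -- definitions of the counting functions
  let A : ((ℕ × ℕ × ℕ × ℤ) × ℕ) → ℕ := fun i =>
    (P.filter (fun p : ℕ => (p : ℤ) ∣ form B i.1 i.2)).card
  let w : ((ℕ × ℕ × ℕ × ℤ) × ℕ) → ℕ → ℕ := fun i l =>
    (Q.filter (fun p : ℕ => (p : ℤ) ∣ (W * i.1.2.1 : ℤ) * l + form B' i.1 i.2)).card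
  have hform : ∀ i : ((ℕ × ℕ × ℕ × ℤ) × ℕ), ∀ l : ℕ,
      form (B' + W * l) i.1 i.2 = (W * i.1.2.1 : ℤ) * l + form B' i.1 i.2 := by
    intro i l; unfold form; ring
  have hsieve : ∀ i ∈ I, ∑ l ∈ range M, y ^ (w i l) ≤
      M * (exp (-(u * ∑ p ∈ Q, (1:ℝ) / p)) + exp (3 * (∑ p ∈ Q, (1:ℝ) / p) - r)) +
        3 * (Q.card : ℝ) ^ r := by
    intro i hi
    apply Sieve.sieve Q (fun p hp => (QQ_prime hp).1) hQ _ _ _ M r hr u hu0 hu1.le
    intro p hp hdvd
    have hpp := QQ_prime hp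
    have hprime : Prime (p : ℤ) := Nat.prime_iff_prime_int.mp hpp.1
    rcases hprime.dvd_or_dvd hdvd with h | h
    · exact hQW p hp h
    · have h1 : p ∣ i.1.2.1 := by exact_mod_cast h
      have hm := mem_combos.mp (show (i.1.1, i.1.2.1, i.1.2.2.1, i.1.2.2.2) ∈ combos K₀ from
        hImem i hi)
      have := Nat.le_of_dvd (by omega) h1
      omega
  set E : ℝ := M * (exp (-(u * ∑ p ∈ Q, (1:ℝ) / p)) + exp (3 * (∑ p ∈ Q, (1:ℝ) / p) - r)) +
        3 * (Q.card : ℝ) ^ r with hE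
  have hE0 : 0 ≤ E := by
    rw [hE]; positivity
  set σ : ℝ := ∑ t ∈ Icc K₀ T, (1:ℝ) / (2 * t) with hσ
  have hCpos : (0:ℝ) < C.card := by exact_mod_cast (combos_nonempty hK).card_pos
  have hprodle : ∀ i ∈ I, ∏ p ∈ P, (1 - (1 - y) / (C.card * orderOf ((i.1.1 : ℕ) : ZMod p))) ≤
      exp (-(u / C.card * σ)) := by
    intro i hi
    have hm := mem_combos.mp (show (i.1.1, i.1.2.1, i.1.2.2.1, i.1.2.2.2) ∈ combos K₀ from
        hImem i hi)
    have h1y : 1 - y = u := by rw [hy]; ring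
    rw [h1y]
    have h1 : ∏ p ∈ P, (1 - u / (C.card * orderOf ((i.1.1 : ℕ) : ZMod p))) ≤
        ∏ p ∈ P, exp (-(u / C.card * (1 / orderOf ((i.1.1 : ℕ) : ZMod p)))) := by
      apply Finset.prod_le_prod
      · intro p hp
        rcases Nat.eq_zero_or_pos (orderOf ((i.1.1 : ℕ) : ZMod p)) with h0 | h0
        · rw [h0]; simp
        · have h1 : (1:ℝ) ≤ orderOf ((i.1.1 : ℕ) : ZMod p) := by exact_mod_cast h0
          have hC1 : (1:ℝ) ≤ C.card := by exact_mod_cast (combos_nonempty hK).card_pos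
          have h2 : (1:ℝ) ≤ C.card * orderOf ((i.1.1 : ℕ) : ZMod p) := by nlinarith
          have : u / (C.card * orderOf ((i.1.1 : ℕ) : ZMod p)) ≤ 1 := by
            rw [div_le_one (by linarith)]
            linarith
          linarith
      · intro p _
        have h2 := Real.add_one_le_exp (-(u / C.card * (1 / orderOf ((i.1.1 : ℕ) : ZMod p))))
        have h3 : u / (C.card * orderOf ((i.1.1 : ℕ) : ZMod p)) =
            u / C.card * (1 / orderOf ((i.1.1 : ℕ) : ZMod p)) := by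
          rw [div_mul_div_comm, mul_one]
        rw [h3]
        linarith
    refine h1.trans ?_
    rw [← Real.exp_sum]
    apply Real.exp_le_exp.mpr
    rw [Finset.sum_neg_distrib, ← Finset.mul_sum]
    have h2 := order_sum (T := T) hm.1.1 hm.1.2
    have h3 : 0 ≤ u / C.card := by positivity
    have := mul_le_mul_of_nonneg_left h2 h3
    linarith
  -- first moment
  let F : ℕ → ℝ := fun l => ∑ i ∈ I, y ^ (A i + w i l)
  have hF : ∑ l ∈ range M, F l ≤ (M / 2) * y ^ L := by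
    calc ∑ l ∈ range M, F l = ∑ i ∈ I, y ^ (A i) * ∑ l ∈ range M, y ^ (w i l) := by
          simp only [F]
          rw [Finset.sum_comm]
          apply Finset.sum_congr rfl
          intro i _
          rw [Finset.mul_sum]
          apply Finset.sum_congr rfl
          intro l _
          rw [pow_add]
      _ ≤ ∑ i ∈ I, y ^ (A i) * E := by
          apply Finset.sum_le_sum
          intro i hi
          exact mul_le_mul_of_nonneg_left (hsieve i hi) (by positivity)
      _ = E * ∑ i ∈ I, y ^ (A i) := by rw [← Finset.sum_mul]; ring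
      _ ≤ E * ∑ i ∈ I, ∏ p ∈ P, (1 - (1 - y) / (C.card * orderOf ((i.1.1 : ℕ) : ZMod p))) :=
          mul_le_mul_of_nonneg_left hB hE0
      _ ≤ E * ∑ i ∈ I, exp (-(u / C.card * σ)) :=
          mul_le_mul_of_nonneg_left (Finset.sum_le_sum hprodle) hE0
      _ = E * ((C.card * H : ℕ) * exp (-(u / C.card * σ))) := by
          rw [Finset.sum_const, nsmul_eq_mul, hIcard]
      _ ≤ (M / 2) * y ^ L := hstar
  have hyL : 0 < y ^ L := Real.rpow_pos_of_pos hy0 L
  -- bad set
  set Bad := (range M).filter (fun l => y ^ L < F l) with hBad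
  have hBadcard : (Bad.card : ℝ) ≤ M / 2 := by
    have h1 : (Bad.card : ℝ) * y ^ L ≤ ∑ l ∈ range M, F l := by
      calc (Bad.card : ℝ) * y ^ L = ∑ l ∈ Bad, y ^ L := by rw [Finset.sum_const, nsmul_eq_mul]
        _ ≤ ∑ l ∈ Bad, F l := by
            apply Finset.sum_le_sum
            intro l hl
            rw [hBad, Finset.mem_filter] at hl
            exact hl.2.le
        _ ≤ ∑ l ∈ range M, F l := by
            apply Finset.sum_le_sum_of_subset_of_nonneg (Finset.filter_subset _ _)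
            intro l _ _
            apply Finset.sum_nonneg
            intro i _
            positivity
    have h2 := h1.trans hF
    exact le_of_mul_le_mul_right h2 hyL
  -- zero set
  set Zero := (range M).filter (fun l : ℕ => ∃ i ∈ I, form (B' + W * l) i.1 i.2 = 0) with hZero
  have hZerocard : Zero.card ≤ C.card * H := by
    rw [← hIcard]
    have hch : ∀ l ∈ Zero, ∃ i ∈ I, form (B' + W * l) i.1 i.2 = 0 := by
      intro l hl
      rw [hZero, Finset.mem_filter] at hl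
      exact hl.2
    choose! φ hφ using hch
    apply Finset.card_le_card_of_injOn φ (fun l hl => (hφ l hl).1)
    intro l hl l' hl' h
    have h1 := (hφ l hl).2
    have h2 := (hφ l' hl').2
    rw [← h] at h2
    have hi := (hφ l hl).1
    have hm := mem_combos.mp (show ((φ l).1.1, (φ l).1.2.1, (φ l).1.2.2.1, (φ l).1.2.2.2) ∈
      combos K₀ from hImem _ hi)
    rw [hform] at h1 h2
    have h3 : (W * (φ l).1.2.1 : ℤ) * l = (W * (φ l).1.2.1 : ℤ) * l' := by linarith
    have hj : (0:ℤ) < (φ l).1.2.1 := by exact_mod_cast hm.2.1.1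
    have h4 : (l : ℤ) = l' := mul_left_cancel₀ (by positivity) h3
    exact_mod_cast h4
  -- good set
  set Good := (range M) \ (Bad ∪ Zero) with hGood
  have hGoodcard : (M:ℝ) / 2 - (C.card * H : ℕ) ≤ Good.card := by
    have h1 : (range M).card ≤ Good.card + (Bad ∪ Zero).card := by
      rw [hGood]
      have := Finset.card_le_card_sdiff_add_card (s := range M) (t := Bad ∪ Zero)
      exact this
    have h2 : (Bad ∪ Zero).card ≤ Bad.card + Zero.card := Finset.card_union_le _ _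
    rw [Finset.card_range] at h1
    have h3 : (M:ℝ) ≤ Good.card + (Bad.card + Zero.card) := by
      have : M ≤ Good.card + (Bad.card + Zero.card) := by omega
      exact_mod_cast this
    have h4 : (Zero.card : ℝ) ≤ (C.card * H : ℕ) := by exact_mod_cast hZerocard
    linarith
  have hinj : Function.Injective (fun l : ℕ => B' + (W:ℤ) * l) := by
    intro l l' h
    simp only [add_right_inj] at h
    have := mul_left_cancel₀ hWpos.ne' h
    exact_mod_cast this
  refine ⟨Good.image (fun l : ℕ => B' + (W:ℤ) * l), ?_, ?_⟩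
  · rw [Finset.card_image_of_injective _ hinj]
    exact hGoodcard
  · intro n hn
    rw [Finset.mem_image] at hn
    obtain ⟨l, hl, rfl⟩ := hn
    rw [hGood, Finset.mem_sdiff, Finset.mem_union, not_or] at hl
    obtain ⟨hlM, hlB, hlZ⟩ := hl
    rw [Finset.mem_range] at hlM
    refine ⟨?_, ?_, ?_⟩
    · have : (0:ℤ) ≤ W * l := by positivity
      linarith
    · have h1 : (l:ℤ) + 1 ≤ M := by exact_mod_cast hlM
      have h2 : (W:ℤ) * l + W ≤ W * M := by nlinarith
      linarith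
    · intro c hc h hh
      have hiI : (c, h) ∈ I := Finset.mem_product.mpr ⟨hc, Finset.mem_range.mpr hh⟩
      have hne : form (B' + W * l) c h ≠ 0 := by
        intro h0
        apply hlZ
        rw [hZero, Finset.mem_filter]
        exact ⟨Finset.mem_range.mpr hlM, (c, h), hiI, h0⟩
      have hFl : F l ≤ y ^ L := by
        by_contra hcon
        push Not at hcon
        apply hlB
        rw [hBad, Finset.mem_filter]
        exact ⟨Finset.mem_range.mpr hlM, hcon⟩
      have hterm : y ^ (A (c, h) + w (c, h) l) ≤ y ^ L := by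
        refine le_trans ?_ hFl
        exact Finset.single_le_sum (f := fun i => y ^ (A i + w i l))
          (fun i _ => by positivity) hiI
      have hylt : y < 1 := by rw [hy]; linarith
      have hAw : A (c, h) + w (c, h) l ≤ (form (B' + W * l) c h).natAbs.primeFactors.card := by
        have hA : A (c, h) = (P.filter (fun p : ℕ => (p : ℤ) ∣ form (B' + W * l) c h)).card := by
          simp only [A]
          congr 1
          apply Finset.filter_congr
          intro p hp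
          have h3 : form (B' + W * l) c h = form B c h + ((B' - B) + W * l) * c.2.1 := by
            unfold form; ring
          rw [h3]
          have h4 : (p : ℤ) ∣ ((B' - B) + W * l) * c.2.1 := by
            apply Dvd.dvd.mul_right
            exact dvd_add (dvd_trans (hPW p hp) hB'mod) (Dvd.dvd.mul_right (hPW p hp) _)
          exact (dvd_add_left h4).symm
        have hw' : w (c, h) l = (Q.filter (fun p : ℕ => (p : ℤ) ∣ form (B' + W * l) c h)).card := by
          simp only [w]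
          rw [hform (c, h) l]
        rw [hA, hw', ← Finset.card_union_of_disjoint]
        · apply Finset.card_le_card
          intro p hp
          rw [Finset.mem_union, Finset.mem_filter, Finset.mem_filter] at hp
          rw [Nat.mem_primeFactors]
          rcases hp with ⟨hpP, hd⟩ | ⟨hpQ, hd⟩
          · exact ⟨(PP_prime hpP).1, Int.natCast_dvd.mp hd, Int.natAbs_ne_zero.mpr hne⟩
          · exact ⟨(QQ_prime hpQ).1, Int.natCast_dvd.mp hd, Int.natAbs_ne_zero.mpr hne⟩
        · rw [Finset.disjoint_left]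
          intro p hp hp'
          rw [Finset.mem_filter] at hp hp'
          exact (QQ_prime hp'.1).2.2 hp.1
      rw [← Real.rpow_natCast, Real.rpow_le_rpow_left_iff_of_base_lt_one hy0 hylt] at hterm
      refine hterm.trans ?_
      exact_mod_cast hAw

end Assembly

namespace Asym

open Real Filter Asymptotics

theorem asym_b (η A c₀ ε : ℝ) (hη : 0 < η) (hε : 0 < ε) :
    ∀ᶠ Y : ℝ in atTop, A + 6 * log Y + c₀ * Y ^ (1 - ε) ≤ η * Y := by
  have h1 : (fun _ : ℝ => A) =o[atTop] (fun Y : ℝ => Y) := isLittleO_const_id_atTop A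
  have h2 : (fun Y : ℝ => 6 * log Y) =o[atTop] (fun Y : ℝ => Y) :=
    isLittleO_log_id_atTop.const_mul_left 6
  have h3 : (fun Y : ℝ => c₀ * Y ^ (1 - ε)) =o[atTop] (fun Y : ℝ => Y) := by
    apply IsLittleO.const_mul_left
    rw [isLittleO_iff_tendsto']
    · have h := tendsto_rpow_neg_atTop hε
      refine h.congr' ?_
      filter_upwards [eventually_gt_atTop 0] with Y hY
      rw [Real.rpow_sub hY, Real.rpow_one, Real.rpow_neg hY.le]
      field_simp
    · filter_upwards [eventually_gt_atTop 0] with Y hY h0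
      exact absurd h0 hY.ne'
  have h4 := (h1.add h2).add h3
  have h5 := h4.bound hη
  filter_upwards [h5, eventually_ge_atTop 0] with Y hY hY0
  rw [Real.norm_eq_abs, Real.norm_eq_abs, abs_of_nonneg hY0] at hY
  exact (le_abs_self _).trans hY

theorem asym_exp_lin (a A B : ℝ) (ha : 0 < a) :
    ∀ᶠ X : ℝ in atTop, A * X + B ≤ exp (a * X) := by
  have h1 : (fun X : ℝ => A * X + B) =o[atTop] (fun X : ℝ => exp (a * X)) := by
    have h2 : (fun X : ℝ => X) =o[atTop] (fun X : ℝ => exp (a * X)) := by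
      have := isLittleO_pow_exp_pos_mul_atTop 1 ha
      simpa using this
    have h3 : (fun _ : ℝ => B) =o[atTop] (fun X : ℝ => exp (a * X)) :=
      (isLittleO_const_id_atTop B).trans h2
    exact (h2.const_mul_left A).add h3
  have h4 := h1.bound (c := 1) one_pos
  filter_upwards [h4] with X hX
  rw [Real.norm_eq_abs, Real.norm_eq_abs, abs_of_pos (exp_pos _), one_mul] at hX
  exact (le_abs_self _).trans hX

theorem asym_e (K ε C : ℝ) (hK : 2 ≤ K) (hε : 0 < ε) (hε1 : ε < 1) :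
    ∀ᶠ X : ℝ in atTop, exp (X / 2) ≤ exp ((1 - ε / 4) * X) / K - 1 ∧
      exp ((1 - ε) * X) ≤ (exp ((1 - ε / 4) * X) / K - 1) / 2 - C * (K * X + 1) := by
  have h1 := asym_exp_lin (1 / 4) 0 (2 * K) (by norm_num)
  have h2 := asym_exp_lin (3 * ε / 4) 0 (4 * K) (by positivity)
  have h3 := asym_exp_lin (1 - ε) (C * K) (C + 1) (by linarith)
  filter_upwards [h1, h2, h3, eventually_ge_atTop 0] with X h1 h2 h3 hX
  have hK0 : 0 < K := by linarith
  constructor
  · have e1 : exp ((3 / 4) * X) = exp (1 / 4 * X) * exp (X / 2) := by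
      rw [← exp_add]; ring_nf
    have e2 : exp ((3 / 4) * X) ≤ exp ((1 - ε / 4) * X) := by
      apply exp_le_exp.mpr
      apply mul_le_mul_of_nonneg_right _ hX
      linarith
    have e3 : 1 ≤ exp (X / 2) := one_le_exp (by linarith)
    have e4 : 2 * K * exp (X / 2) ≤ exp ((1 - ε / 4) * X) := by
      calc 2 * K * exp (X / 2) ≤ exp (1 / 4 * X) * exp (X / 2) := by
            apply mul_le_mul_of_nonneg_right _ (exp_pos _).le
            linarith
        _ ≤ _ := by rw [← e1]; exact e2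
    have e5 : 2 * exp (X / 2) ≤ exp ((1 - ε / 4) * X) / K := by
      rw [le_div_iff₀ hK0]
      linarith
    linarith
  · have e1 : exp ((1 - ε / 4) * X) = exp (3 * ε / 4 * X) * exp ((1 - ε) * X) := by
      rw [← exp_add]; ring_nf
    have e2 : 4 * K * exp ((1 - ε) * X) ≤ exp ((1 - ε / 4) * X) := by
      rw [e1]
      apply mul_le_mul_of_nonneg_right _ (exp_pos _).le
      linarith
    have e3 : 4 * exp ((1 - ε) * X) ≤ exp ((1 - ε / 4) * X) / K := by
      rw [le_div_iff₀ hK0]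
      linarith
    nlinarith

theorem asym_d : ∀ᶠ Y : ℝ in atTop, 4 * Y ^ 2 ≤ exp Y := by
  have h1 : (fun X : ℝ => X ^ 2) =o[atTop] (fun X : ℝ => exp X) := isLittleO_pow_exp_atTop
  have h4 := h1.bound (c := 1 / 4) (by norm_num)
  filter_upwards [h4] with X hX
  rw [Real.norm_eq_abs, Real.norm_eq_abs, abs_of_pos (exp_pos _)] at hX
  have := (le_abs_self _).trans hX
  linarith

end Asym

namespace Final

open Finset Real
open Choice Assembly Asym


/-- the sum of reciprocals of the sieving primes: upper bound -/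
theorem S_upper (K₀ T z : ℕ) (hz : 3 ≤ z) :
    ∑ p ∈ QQ K₀ T z, (1:ℝ) / p ≤ 4 * log (log z) + 12 := by
  refine le_trans ?_ (PrimeSums.sum_inv_upper hz)
  apply Finset.sum_le_sum_of_subset_of_nonneg (Finset.filter_subset _ _)
  intro p _ _
  positivity

theorem S_lower (K₀ T z N : ℕ) (hz : 3 ≤ z) (hN : 3 ≤ N) (hPN : (PP K₀ T).card ≤ N) :
    log (log z) - (4 * log (log N) + 14 + K₀) ≤ ∑ p ∈ QQ K₀ T z, (1:ℝ) / p := by
  classical
  have h1 := PrimeSums.sum_inv_lower (show 2 ≤ z by omega)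
  -- split primes below z
  have h2 : ∑ p ∈ Nat.primesBelow z, (1:ℝ) / p ≤ ∑ p ∈ QQ K₀ T z, (1:ℝ) / p +
      (∑ p ∈ Finset.Icc 1 K₀, (1:ℝ) / p + (∑ p ∈ Nat.primesLE N, (1:ℝ) / p +
        ∑ p ∈ (PP K₀ T).filter (fun p => N < p), (1:ℝ) / p)) := by
    have hsub : Nat.primesBelow z ⊆ QQ K₀ T z ∪ (Finset.Icc 1 K₀ ∪ (Nat.primesLE N ∪
        (PP K₀ T).filter (fun p => N < p))) := by
      intro p hp
      have hpp := Nat.prime_of_mem_primesBelow hp
      have hpz := Nat.lt_of_mem_primesBelow hp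
      rw [Finset.mem_union, Finset.mem_union, Finset.mem_union]
      by_cases h1 : p ≤ K₀
      · right; left
        rw [Finset.mem_Icc]
        exact ⟨hpp.one_lt.le, h1⟩
      · by_cases h2 : p ∈ PP K₀ T
        · right; right
          by_cases h3 : p ≤ N
          · left
            rw [Nat.mem_primesLE]
            exact ⟨h3, hpp⟩
          · right
            rw [Finset.mem_filter]
            exact ⟨h2, by omega⟩
        · left
          unfold QQ
          rw [Finset.mem_filter, Nat.mem_primesLE]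
          exact ⟨⟨hpz.le, hpp⟩, by omega, h2⟩
    have hnn : ∀ (s t : Finset ℕ), ∑ p ∈ s ∪ t, (1:ℝ) / p ≤
        ∑ p ∈ s, (1:ℝ) / p + ∑ p ∈ t, (1:ℝ) / p := by
      intro s t
      rw [← Finset.sum_union_inter]
      have : (0:ℝ) ≤ ∑ p ∈ s ∩ t, (1:ℝ) / p := Finset.sum_nonneg (fun p _ => by positivity)
      linarith
    have h3 : ∑ p ∈ Nat.primesBelow z, (1:ℝ) / p ≤ ∑ p ∈ QQ K₀ T z ∪ (Finset.Icc 1 K₀ ∪
        (Nat.primesLE N ∪ (PP K₀ T).filter (fun p => N < p))), (1:ℝ) / p := by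
      apply Finset.sum_le_sum_of_subset_of_nonneg hsub
      intro p _ _
      positivity
    have h4 := hnn (QQ K₀ T z) (Finset.Icc 1 K₀ ∪
        (Nat.primesLE N ∪ (PP K₀ T).filter (fun p => N < p)))
    have h5 := hnn (Finset.Icc 1 K₀) (Nat.primesLE N ∪ (PP K₀ T).filter (fun p => N < p))
    have h6 := hnn (Nat.primesLE N) ((PP K₀ T).filter (fun p => N < p))
    linarith
  have h3 : ∑ p ∈ Finset.Icc 1 K₀, (1:ℝ) / p ≤ K₀ := by
    calc ∑ p ∈ Finset.Icc 1 K₀, (1:ℝ) / p ≤ ∑ p ∈ Finset.Icc 1 K₀, (1:ℝ) := by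
          apply Finset.sum_le_sum
          intro p hp
          rw [Finset.mem_Icc] at hp
          have : (1:ℝ) ≤ p := by exact_mod_cast hp.1
          rw [div_le_one (by linarith)]
          exact this
      _ = K₀ := by simp
  have h4 := PrimeSums.sum_inv_upper hN
  have h5 : ∑ p ∈ (PP K₀ T).filter (fun p => N < p), (1:ℝ) / p ≤ 1 := by
    have hNpos : (0:ℝ) < N := by exact_mod_cast (by omega : 0 < N)
    calc ∑ p ∈ (PP K₀ T).filter (fun p => N < p), (1:ℝ) / p
        ≤ ∑ p ∈ (PP K₀ T).filter (fun p => N < p), (1:ℝ) / N := by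
          apply Finset.sum_le_sum
          intro p hp
          rw [Finset.mem_filter] at hp
          apply one_div_le_one_div_of_le hNpos
          exact_mod_cast hp.2.le
      _ = ((PP K₀ T).filter (fun p => N < p)).card * (1 / (N:ℝ)) := by
          rw [Finset.sum_const, nsmul_eq_mul]
      _ ≤ N * (1 / (N:ℝ)) := by
          apply mul_le_mul_of_nonneg_right _ (by positivity)
          have := Finset.card_le_card (Finset.filter_subset (fun p => N < p) (PP K₀ T))
          exact_mod_cast this.trans hPN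
      _ = 1 := by field_simp
  linarith

theorem sigma_lower (K₀ T : ℕ) : (1 / 2 : ℝ) * (log (T + 1) - K₀) ≤
    ∑ t ∈ Icc K₀ T, (1:ℝ) / (2 * t) := by
  have h1 : log ((T:ℝ) + 1) ≤ ∑ t ∈ Icc 1 T, ((t:ℝ))⁻¹ := by
    have := log_add_one_le_harmonic T
    rw [harmonic_eq_sum_Icc] at this
    push_cast at this
    exact this
  have h2 : ∑ t ∈ Icc 1 T, ((t:ℝ))⁻¹ ≤ ∑ t ∈ Icc K₀ T, ((t:ℝ))⁻¹ + ∑ t ∈ Icc 1 K₀, ((t:ℝ))⁻¹ := by
    have hsub : Icc 1 T ⊆ Icc K₀ T ∪ Icc 1 K₀ := by
      intro t ht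
      rw [Finset.mem_union, Finset.mem_Icc, Finset.mem_Icc]
      rw [Finset.mem_Icc] at ht
      omega
    refine (Finset.sum_le_sum_of_subset_of_nonneg hsub (fun t _ _ => by positivity)).trans ?_
    rw [← Finset.sum_union_inter]
    have : (0:ℝ) ≤ ∑ t ∈ Icc K₀ T ∩ Icc 1 K₀, ((t:ℝ))⁻¹ :=
      Finset.sum_nonneg (fun t _ => by positivity)
    linarith
  have h3 : ∑ t ∈ Finset.Icc 1 K₀, ((t:ℝ))⁻¹ ≤ K₀ := by
    calc ∑ t ∈ Finset.Icc 1 K₀, ((t:ℝ))⁻¹ ≤ ∑ t ∈ Finset.Icc 1 K₀, (1:ℝ) := by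
          apply Finset.sum_le_sum
          intro p hp
          rw [Finset.mem_Icc] at hp
          have : (1:ℝ) ≤ p := by exact_mod_cast hp.1
          exact inv_le_one_of_one_le₀ this
      _ = K₀ := by simp
  have h4 : ∑ t ∈ Icc K₀ T, (1:ℝ) / (2 * t) = (1 / 2) * ∑ t ∈ Icc K₀ T, ((t:ℝ))⁻¹ := by
    rw [Finset.mul_sum]
    apply Finset.sum_congr rfl
    intro t _
    rw [← one_div, div_mul_div_comm, one_mul]
  rw [h4]
  linarith

/-- The purely numerical part of the key inequality. -/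
theorem star_aux (C : ℕ) (hC1 : 1 ≤ C) (K c₀ C₁ C₂ u Y X S σ M H ε qr r A : ℝ)
    (hK : 0 < K) (hu : u = 1 - 1 / (16 * C)) (hc₀ : c₀ = log (16 * C)) (hexpY : exp Y = X)
    (hM : 0 < M) (hH0 : 0 ≤ H) (hqr : 0 ≤ qr)
    (hA : A = log 2 + log (6 * C * K) + C₁ + (u / C) * C₂)
    (hb : A + 6 * log Y + c₀ * Y ^ (1 - ε) ≤ 11 / (64 * C) * Y) (hYpos : 0 < Y)
    (herr1 : exp (-(u * S)) ≤ exp (-(u * Y) + 6 * log Y + C₁))
    (herr2 : exp (3 * S - r) ≤ exp (-(u * Y) + 6 * log Y + C₁))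
    (herr3 : 3 * qr ≤ M * exp (-(u * Y) + 6 * log Y + C₁))
    (hH : H ≤ 2 * K * X) (hσl : Y / 4 - C₂ ≤ σ) :
    (M * (exp (-(u * S)) + exp (3 * S - r)) + 3 * qr) * ((C * H) * exp (-(u / C * σ))) ≤
      (M / 2) * (1 - u) ^ (Y ^ (1 - ε)) := by
  have hC1R : (1:ℝ) ≤ C := by exact_mod_cast hC1
  have hCpos : (0:ℝ) < C := by linarith only [hC1R]
  have h16 : (1:ℝ) / (16 * C) ≤ 1 / 16 := by
    apply one_div_le_one_div_of_le (by norm_num)
    linarith only [hC1R]
  have h16pos : (0:ℝ) < 1 / (16 * C) := by positivity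
  have hu0 : 0 < u := by rw [hu]; linarith only [h16]
  have hu1 : u < 1 := by rw [hu]; linarith only [h16pos]
  have h1u : 1 - u = 1 / (16 * C) := by rw [hu]; ring
  have hlog1u : log (1 - u) = -c₀ := by rw [h1u, one_div, log_inv, hc₀]
  set B₀ : ℝ := exp (-(u * Y) + 6 * log Y + C₁) with hB₀
  have h1 : M * (exp (-(u * S)) + exp (3 * S - r)) + 3 * qr ≤ 3 * M * B₀ := by
    have := mul_le_mul_of_nonneg_left (add_le_add herr1 herr2) hM.le
    linarith only [this, herr3]
  have h2 : (C:ℝ) * H ≤ 2 * C * K * exp Y := by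
    rw [hexpY]
    calc (C:ℝ) * H ≤ C * (2 * K * X) := mul_le_mul_of_nonneg_left hH hCpos.le
      _ = 2 * C * K * X := by ring
  have h3 : exp (-(u / C * σ)) ≤ exp (-(u / C * (Y / 4 - C₂))) := by
    apply exp_le_exp.mpr
    have h0 : 0 ≤ u / C := by positivity
    have := mul_le_mul_of_nonneg_left hσl h0
    linarith only [this]
  have h4 : (M * (exp (-(u * S)) + exp (3 * S - r)) + 3 * qr) *
      ((C * H) * exp (-(u / C * σ))) ≤
      (3 * M * B₀) * ((2 * C * K * exp Y) * exp (-(u / C * (Y / 4 - C₂)))) := by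
    apply mul_le_mul h1 _ (by positivity) (by positivity)
    exact mul_le_mul h2 h3 (exp_pos _).le (by positivity)
  refine h4.trans ?_
  have h5 : (1 - u) ^ (Y ^ (1 - ε)) = exp (-(c₀ * Y ^ (1 - ε))) := by
    rw [Real.rpow_def_of_pos (by linarith only [hu1]), hlog1u]
    ring_nf
  rw [h5]
  have h6 : (3 * M * B₀) * ((2 * C * K * exp Y) * exp (-(u / C * (Y / 4 - C₂)))) =
      (M / 2) * (2 * (6 * C * K) * (B₀ * exp Y * exp (-(u / C * (Y / 4 - C₂))))) := by ring
  rw [h6]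
  apply mul_le_mul_of_nonneg_left _ (by positivity)
  have h7 : (2:ℝ) * (6 * C * K) * (B₀ * exp Y * exp (-(u / C * (Y / 4 - C₂)))) =
      exp (log 2 + log (6 * C * K) + (-(u * Y) + 6 * log Y + C₁) + Y +
        (-(u / C * (Y / 4 - C₂)))) := by
    rw [exp_add, exp_add, exp_add, exp_add, Real.exp_log (by norm_num),
      Real.exp_log (by positivity), hB₀]
    ring
  rw [h7]
  apply exp_le_exp.mpr
  have h8 : Y * (1 - u - u / (4 * C)) ≤ -(11 / (64 * C)) * Y := by
    have h9 : 1 - u - u / (4 * C) ≤ -(11 / (64 * C)) := by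
      rw [h1u, hu]
      have h10 : 1 / (16 * (C:ℝ)) - (1 - 1 / (16 * C)) / (4 * C) =
          -(12 / (64 * C)) + 1 / (64 * C) * (1 / C) := by
        field_simp
        ring
      rw [h10]
      have h11 : 1 / (C:ℝ) ≤ 1 := by rw [div_le_one hCpos]; exact hC1R
      have h12 : 1 / (64 * (C:ℝ)) * (1 / C) ≤ 1 / (64 * C) * 1 :=
        mul_le_mul_of_nonneg_left h11 (by positivity)
      have h13 : -(11 / (64 * (C:ℝ))) = -(12 / (64 * C)) + 1 / (64 * C) := by ring
      linarith only [h12, h13]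
    have := mul_le_mul_of_nonneg_left h9 hYpos.le
    linarith only [this]
  have h14 : -(u / C * (Y / 4 - C₂)) = -(u / (4 * C)) * Y + (u / C) * C₂ := by
    field_simp
    ring
  rw [h14]
  rw [hA] at hb
  linarith only [hb, h8]

/-- Estimates for the sieving range. -/
theorem z_facts (X Y : ℝ) (hexpY : exp Y = X) (hY : 300 ≤ Y) (hd : 4 * Y ^ 2 ≤ X) :
    3 ≤ ⌊exp (X / Y ^ 2)⌋₊ ∧ ((⌊exp (X / Y ^ 2)⌋₊ : ℕ) : ℝ) ≤ exp (X / Y ^ 2) ∧
    log (log (⌊exp (X / Y ^ 2)⌋₊ : ℕ)) ≤ Y ∧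
    Y - 2 * log Y - 1 ≤ log (log (⌊exp (X / Y ^ 2)⌋₊ : ℕ)) := by
  have hX0 : 0 < X := by rw [← hexpY]; exact exp_pos _
  have hlogX : log X = Y := by rw [← hexpY, log_exp]
  have hYsq : 0 < Y ^ 2 := by positivity
  set V : ℝ := X / Y ^ 2 with hV
  have hV4 : 4 ≤ V := by rw [hV, le_div_iff₀ hYsq]; exact hd
  set z : ℕ := ⌊exp V⌋₊ with hz
  have hexpV : 5 ≤ exp V := by
    have := Real.add_one_le_exp V
    linarith only [this, hV4]
  have hzle : (z:ℝ) ≤ exp V := Nat.floor_le (exp_pos _).le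
  have hzgt : exp V < z + 1 := Nat.lt_floor_add_one _
  have hz3 : 3 ≤ z := Nat.le_floor (by push_cast; linarith only [hexpV])
  have hzR : (3:ℝ) ≤ z := by exact_mod_cast hz3
  have hl2' : log 2 < 0.7 := by
    have := Real.log_two_lt_d9
    linarith only [this]
  have hlogz_le : log z ≤ V := by
    have := Real.log_le_log (by linarith only [hzR]) hzle
    rwa [Real.log_exp] at this
  have hlogz_ge : V / 2 ≤ log z := by
    have h1 : exp V / 2 ≤ z := by linarith only [hzgt, hexpV]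
    have h2 := Real.log_le_log (by positivity) h1
    rw [Real.log_div (by positivity) (by norm_num), Real.log_exp] at h2
    linarith only [h2, hl2', hV4]
  have hlogzpos : 0 < log (z:ℝ) := by linarith only [hlogz_ge, hV4]
  refine ⟨hz3, hzle, ?_, ?_⟩
  · have h1 : log z ≤ X := by
      refine hlogz_le.trans ?_
      rw [hV]
      apply div_le_self hX0.le
      nlinarith only [hY]
    have := Real.log_le_log hlogzpos h1
    rwa [hlogX] at this
  · have h1 := Real.log_le_log (by positivity) hlogz_ge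
    rw [hV, Real.log_div (by positivity) (by norm_num), Real.log_div (by positivity) (by positivity),
      Real.log_pow, hlogX] at h1
    push_cast at h1
    linarith only [h1, hl2']

theorem main (K : ℝ) (hK : 2 ≤ K) (ε : ℝ) (hε : 0 < ε) (hε1 : ε < 1) :
    ∃ x₀ : ℝ, ∀ x : ℝ, x₀ ≤ x →
      x ^ (1 - ε) ≤ ({n : ℤ | x ≤ n ∧ (n : ℝ) ≤ (1 + K⁻¹) * x ∧ Good K ε x n}.ncard : ℝ) := by
  classical
  have hK0 : 0 < K := by linarith
  set K₀ : ℕ := ⌊K⌋₊ with hK₀
  have hK₀2 : 2 ≤ K₀ := Nat.le_floor (by exact_mod_cast hK)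
  have hK₀R : (2:ℝ) ≤ K₀ := by exact_mod_cast hK₀2
  set C : ℕ := (combos K₀).card with hC
  have hC1 : 1 ≤ C := (combos_nonempty hK₀2).card_pos
  have hC1R : (1:ℝ) ≤ C := by exact_mod_cast hC1
  set u : ℝ := 1 - 1 / (16 * C) with hu
  have h16 : (1:ℝ) / (16 * C) ≤ 1 / 16 := by
    apply one_div_le_one_div_of_le (by norm_num)
    linarith
  have h16pos : (0:ℝ) < 1 / (16 * C) := by positivity
  have hu0 : 0 < u := by rw [hu]; linarith
  have hu1 : u < 1 := by rw [hu]; linarith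
  set c₀ : ℝ := log (16 * C) with hc₀
  set δ : ℝ := ε / (8 * K₀ ^ 2) with hδ
  have hδ0 : 0 < δ := by rw [hδ]; positivity
  -- constants
  set C₁ : ℝ := 15 + K₀ with hC₁
  set C₂ : ℝ := K₀ / 2 - (1 / 4) * log δ with hC₂
  set A : ℝ := log 2 + log (6 * C * K) + C₁ + (u / C) * C₂ with hA
  obtain ⟨Y₀, hY₀⟩ := Filter.eventually_atTop.mp (((asym_b (11 / (64 * C)) A c₀ ε (by positivity) hε).and
    asym_d).and (((Real.tendsto_exp_atTop).eventually (asym_e K ε C hK hε hε1)).and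
      ((Filter.eventually_ge_atTop 300).and (asym_b (1 / 2) C₁ 0 ε (by norm_num) hε))))
  refine ⟨exp (exp Y₀), ?_⟩
  intro x hx
  have hx0 : 0 < x := lt_of_lt_of_le (exp_pos _) hx
  set X : ℝ := log x with hX
  have hexpX : exp X = x := by rw [hX, exp_log hx0]
  have hXge : exp Y₀ ≤ X := by rw [hX]; rwa [Real.le_log_iff_exp_le hx0]
  have hX0 : 0 < X := lt_of_lt_of_le (exp_pos _) hXge
  set Y : ℝ := log X with hY
  have hexpY : exp Y = X := by rw [hY, exp_log hX0]
  have hYge : Y₀ ≤ Y := by rw [hY]; rwa [Real.le_log_iff_exp_le hX0]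
  obtain ⟨⟨hb, hd⟩, he, hY300, hSpos⟩ := hY₀ Y hYge
  rw [hexpY] at hd he
  obtain ⟨he1, he2⟩ := he
  have hYpos : 0 < Y := by linarith only [hY300]
  have hXbig : 4 * 300 ^ 2 ≤ X := by nlinarith only [hd, hY300]
  -- T
  set T : ℕ := ⌊√(δ * X)⌋₊ with hT
  have hTle : (T:ℝ) ≤ √(δ * X) := Nat.floor_le (Real.sqrt_nonneg _)
  have hTsq : (T:ℝ) ^ 2 ≤ δ * X := by
    have := pow_le_pow_left₀ (Nat.cast_nonneg T) hTle 2
    rwa [Real.sq_sqrt (by positivity)] at this
  have hTlt : √(δ * X) < T + 1 := Nat.lt_floor_add_one _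
  -- W
  set W : ℕ := WW K₀ T with hW
  have hWpos : (0:ℝ) < W := by exact_mod_cast WW_pos K₀ T
  have hWle : (W:ℝ) ≤ exp (ε / 4 * X) := by
    have h1 : (W:ℝ) ≤ (K₀:ℝ) ^ (2 * K₀ * T ^ 2) := by exact_mod_cast WW_le K₀ T hK₀2
    refine h1.trans ?_
    have hK₀pos : (0:ℝ) < K₀ := by linarith only [hK₀R]
    rw [← Real.exp_log (show (0:ℝ) < (K₀:ℝ) ^ (2 * K₀ * T ^ 2) by positivity), Real.log_pow]
    apply exp_le_exp.mpr
    push_cast
    have hlogK : log K₀ ≤ K₀ := (Real.log_le_sub_one_of_pos hK₀pos).trans (by linarith only)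
    calc 2 * (K₀:ℝ) * T ^ 2 * log K₀ ≤ 2 * K₀ * T ^ 2 * K₀ :=
          mul_le_mul_of_nonneg_left hlogK (by positivity)
      _ = 2 * K₀ ^ 2 * T ^ 2 := by ring
      _ ≤ 2 * K₀ ^ 2 * (δ * X) := mul_le_mul_of_nonneg_left hTsq (by positivity)
      _ = ε / 4 * X := by rw [hδ]; field_simp; ring
  have hl2 : (0.69:ℝ) < log 2 := by
    have := Real.log_two_gt_d9
    linarith only [this]
  have hPcard : ((PP K₀ T).card : ℝ) ≤ X / 2 := by
    have h1 : (2:ℝ) ^ (PP K₀ T).card ≤ W := by exact_mod_cast two_pow_card_PP K₀ T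
    have h2 := h1.trans hWle
    have h3 := Real.log_le_log (by positivity) h2
    rw [Real.log_pow, Real.log_exp] at h3
    have h4 : (0:ℝ) ≤ (PP K₀ T).card := Nat.cast_nonneg _
    have h5 : ((PP K₀ T).card : ℝ) * 0.69 ≤ (PP K₀ T).card * log 2 :=
      mul_le_mul_of_nonneg_left hl2.le h4
    have h6 : ε / 4 * X ≤ 1 / 4 * X := mul_le_mul_of_nonneg_right (by linarith only [hε1]) hX0.le
    linarith only [h3, h5, h6, h4, hX0]
  -- N
  set N : ℕ := ⌊X⌋₊ with hN
  have hN3 : 3 ≤ N := Nat.le_floor (by push_cast; linarith only [hXbig])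
  have hNle : (N:ℝ) ≤ X := Nat.floor_le hX0.le
  have hNgt : X < N + 1 := Nat.lt_floor_add_one _
  have hPN : (PP K₀ T).card ≤ N := by
    have : ((PP K₀ T).card : ℝ) ≤ N := by linarith only [hPcard, hNgt, hXbig]
    exact_mod_cast this
  have hNR : (3:ℝ) ≤ N := by exact_mod_cast hN3
  have hexp1 : exp 1 < 3 := by
    have := Real.exp_one_lt_d9
    linarith only [this]
  have hlogN1 : 1 < log (N:ℝ) := by
    rw [Real.lt_log_iff_exp_lt (by linarith only [hNR])]
    linarith only [hNR, hexp1]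
  have hloglogN : log (log N) ≤ log Y := by
    apply Real.log_le_log (by linarith only [hlogN1])
    rw [hY]
    exact Real.log_le_log (by linarith only [hNR]) hNle
  -- z
  have hYsq : 0 < Y ^ 2 := by positivity
  obtain ⟨hz3, hzle, hloglogz_le, hloglogz_ge⟩ := z_facts X Y hexpY hY300 hd
  set V : ℝ := X / Y ^ 2 with hV
  set z : ℕ := ⌊exp V⌋₊ with hz
  have hlogY : 0 ≤ log Y := Real.log_nonneg (by linarith only [hY300])
  -- S
  set S : ℝ := ∑ p ∈ QQ K₀ T z, (1:ℝ) / p with hS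
  have hSu : S ≤ 4 * Y + 12 := by
    have := S_upper K₀ T z hz3
    linarith only [this, hloglogz_le]
  have hSl : Y - 6 * log Y - C₁ ≤ S := by
    have := S_lower K₀ T z N hz3 hN3 hPN
    rw [hC₁]
    linarith only [this, hloglogz_ge, hloglogN]
  -- r
  set r : ℕ := 2 * ⌈7 * Y⌉₊ with hr
  have hreven : Even r := ⟨⌈7 * Y⌉₊, by rw [hr]; ring⟩
  have hrge : 14 * Y ≤ r := by
    have := Nat.le_ceil (7 * Y)
    rw [hr]; push_cast; linarith only [this]
  have hrle : (r:ℝ) ≤ 14 * Y + 2 := by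
    have := Nat.ceil_lt_add_one (show 0 ≤ 7 * Y by positivity)
    rw [hr]; push_cast; linarith only [this]
  -- M
  set M : ℕ := ⌊x / (K * W)⌋₊ with hM
  have hMle : (M:ℝ) ≤ x / (K * W) := Nat.floor_le (by positivity)
  have hMgt : x / (K * W) < M + 1 := Nat.lt_floor_add_one _
  have hMge : exp ((1 - ε / 4) * X) / K - 1 ≤ M := by
    have h1 : exp ((1 - ε / 4) * X) / K ≤ x / (K * W) := by
      rw [div_le_div_iff₀ hK0 (by positivity)]
      have h2 : exp ((1 - ε / 4) * X) * W ≤ x := by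
        calc exp ((1 - ε / 4) * X) * W ≤ exp ((1 - ε / 4) * X) * exp (ε / 4 * X) :=
              mul_le_mul_of_nonneg_left hWle (exp_pos _).le
          _ = x := by rw [← exp_add, ← hexpX]; ring_nf
      calc exp ((1 - ε / 4) * X) * (K * W) = (exp ((1 - ε / 4) * X) * W) * K := by ring
        _ ≤ x * K := mul_le_mul_of_nonneg_right h2 hK0.le
    linarith only [h1, hMgt]
  have hMX : exp (X / 2) ≤ M := by linarith only [he1, hMge]
  have hMpos : (0:ℝ) < M := lt_of_lt_of_le (exp_pos _) hMX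
  -- H
  set H : ℕ := ⌊K * X⌋₊ + 1 with hH
  have hHle : (H:ℝ) ≤ K * X + 1 := by
    have := Nat.floor_le (show 0 ≤ K * X by positivity)
    rw [hH]; push_cast; linarith only [this]
  have hHgt : K * X < H := by
    have := Nat.lt_floor_add_one (K * X)
    rw [hH]; push_cast; exact this
  have hQcard : ((QQ K₀ T z).card : ℝ) ≤ exp V := by
    have h1 : (QQ K₀ T z).card ≤ z := by
      have h2 : QQ K₀ T z ⊆ Finset.Icc 1 z := by
        intro p hp
        have h3 := QQ_prime hp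
        unfold QQ at hp
        rw [Finset.mem_filter, Nat.mem_primesLE] at hp
        rw [Finset.mem_Icc]
        exact ⟨h3.1.one_lt.le, hp.1.1⟩
      have := Finset.card_le_card h2
      simpa using this
    have : ((QQ K₀ T z).card : ℝ) ≤ z := by exact_mod_cast h1
    exact this.trans hzle
  -- the three error terms
  have hC₁pos : 0 ≤ C₁ := by rw [hC₁]; linarith only [hK₀R]
  have herr1 : exp (-(u * S)) ≤ exp (-(u * Y) + 6 * log Y + C₁) := by
    apply exp_le_exp.mpr
    have h1 : u * (Y - 6 * log Y - C₁) ≤ u * S := mul_le_mul_of_nonneg_left hSl hu0.le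
    have h2 : u * (6 * log Y + C₁) ≤ 1 * (6 * log Y + C₁) :=
      mul_le_mul_of_nonneg_right hu1.le (by linarith only [hlogY, hC₁pos])
    linarith only [h1, h2]
  have hBY : exp (-Y) ≤ exp (-(u * Y) + 6 * log Y + C₁) := by
    apply exp_le_exp.mpr
    have : u * Y ≤ 1 * Y := mul_le_mul_of_nonneg_right hu1.le hYpos.le
    linarith only [this, hlogY, hC₁pos]
  have herr2 : exp (3 * S - r) ≤ exp (-(u * Y) + 6 * log Y + C₁) := by
    refine le_trans ?_ hBY
    apply exp_le_exp.mpr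
    linarith only [hSu, hrge, hY300]
  have hQr : ((QQ K₀ T z).card : ℝ) ^ r ≤ exp (X / 16) := by
    have h1 : ((QQ K₀ T z).card : ℝ) ^ r ≤ (exp V) ^ r :=
      pow_le_pow_left₀ (Nat.cast_nonneg _) hQcard r
    refine h1.trans ?_
    rw [← Real.exp_nat_mul]
    apply exp_le_exp.mpr
    rw [hV]
    have h2 : (r:ℝ) * (X / Y ^ 2) = X * (r / Y ^ 2) := by ring
    rw [h2]
    have h3 : (r:ℝ) / Y ^ 2 ≤ 1 / 16 := by
      rw [div_le_iff₀ hYsq]
      nlinarith only [hrle, hY300]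
    have := mul_le_mul_of_nonneg_left h3 hX0.le
    linarith only [this]
  have herr3 : 3 * ((QQ K₀ T z).card : ℝ) ^ r ≤ M * exp (-(u * Y) + 6 * log Y + C₁) := by
    have h1 : 3 * ((QQ K₀ T z).card : ℝ) ^ r ≤ 3 * exp (X / 16) := by linarith only [hQr]
    have h2 : exp (X / 2) * exp (-Y) ≤ M * exp (-(u * Y) + 6 * log Y + C₁) :=
      mul_le_mul hMX hBY (exp_pos _).le (by positivity)
    have h3 : 3 * exp (X / 16) ≤ exp (X / 2) * exp (-Y) := by
      have h4 : (3:ℝ) ≤ exp 2 := by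
        have := Real.add_one_le_exp (2:ℝ)
        linarith only [this]
      calc 3 * exp (X / 16) ≤ exp 2 * exp (X / 16) :=
            mul_le_mul_of_nonneg_right h4 (exp_pos _).le
        _ = exp (2 + X / 16) := by rw [exp_add]
        _ ≤ exp (X / 2 + -Y) := by
            apply exp_le_exp.mpr
            have : 1200 * Y ≤ 4 * Y ^ 2 := by nlinarith only [hY300]
            linarith only [this, hd, hY300]
        _ = exp (X / 2) * exp (-Y) := by rw [exp_add]
    linarith only [h1, h2, h3]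
  -- sigma
  set σ : ℝ := ∑ t ∈ Icc K₀ T, (1:ℝ) / (2 * t) with hσ
  have hσl : Y / 4 - C₂ ≤ σ := by
    have h1 := sigma_lower K₀ T
    have h2 : log (√(δ * X)) ≤ log ((T:ℝ) + 1) :=
      Real.log_le_log (Real.sqrt_pos.mpr (by positivity)) hTlt.le
    rw [Real.log_sqrt (by positivity), Real.log_mul hδ0.ne' hX0.ne'] at h2
    rw [hC₂]
    linarith only [h1, h2, hY]
  -- the key inequality
  have hH2 : (H:ℝ) ≤ 2 * K * X := by nlinarith only [hHle, hK, hXbig]
  have hstar := star_aux C hC1 K c₀ C₁ C₂ u Y X S σ M H ε (((QQ K₀ T z).card : ℝ) ^ r) r A hK0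
    hu hc₀ hexpY hMpos (Nat.cast_nonneg _) (by positivity) hA hb hYpos herr1 herr2 herr3 hH2 hσl
  have hQne : (QQ K₀ T z).Nonempty := by
    rw [Finset.nonempty_iff_ne_empty]
    intro h0
    have hS0 : S = 0 := by rw [hS, h0]; simp
    linarith only [hS0, hSl, hSpos, hY300]
  obtain ⟨G, hGcard, hG⟩ := finite_form K₀ T z H M r hK₀2 hreven u (Y ^ (1 - ε)) hu0 hu1 ⌈x⌉ hQne
    (by push_cast; push_cast at hstar; exact hstar)
  have hcount : x ^ (1 - ε) ≤ G.card := by
    have h1 : x ^ (1 - ε) = exp ((1 - ε) * X) := by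
      rw [Real.rpow_def_of_pos hx0, mul_comm]
    rw [h1]
    have h2 : (((combos K₀).card * H : ℕ) : ℝ) ≤ C * (K * X + 1) := by
      push_cast
      exact mul_le_mul_of_nonneg_left hHle (by linarith only [hC1R])
    linarith only [he2, hMge, hGcard, h2]
  -- the set is finite
  have hfin : {n : ℤ | x ≤ n ∧ (n : ℝ) ≤ (1 + K⁻¹) * x ∧ Good K ε x n}.Finite := by
    apply (Set.finite_Icc ⌈x⌉ ⌊(1 + K⁻¹) * x⌋).subset
    rintro n ⟨h1, h2, _⟩
    exact ⟨Int.ceil_le.mpr h1, Int.le_floor.mpr h2⟩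
  have hsub : (G : Set ℤ) ⊆ {n : ℤ | x ≤ n ∧ (n : ℝ) ≤ (1 + K⁻¹) * x ∧ Good K ε x n} := by
    intro n hn
    obtain ⟨h1, h2, h3⟩ := hG n hn
    refine ⟨Int.ceil_le.mp h1, ?_, ?_⟩
    · have h4 : (n:ℝ) + 1 ≤ ⌈x⌉ + W * M := by exact_mod_cast h2
      have h5 := Int.ceil_lt_add_one x
      have h6 : (W:ℝ) * M ≤ x / K := by
        calc (W:ℝ) * M ≤ W * (x / (K * W)) := mul_le_mul_of_nonneg_left hMle hWpos.le
          _ = x / K := by field_simp
      have h7 : (1 + K⁻¹) * x = x + x / K := by rw [add_mul, one_mul, div_eq_mul_inv]; ring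
      rw [h7]
      linarith only [h4, h5, h6]
    · intro a j k h ha2 haK hj1 hjK hk1 hkK hh
      have haK' : a ≤ K₀ := Nat.le_floor haK
      have hjK' : j ≤ K₀ := Nat.le_floor hjK
      have hkK' : k ≤ K₀ := Nat.le_floor hkK
      have hhH : h < H := by
        have : (h:ℝ) < H := lt_of_le_of_lt hh hHgt
        exact_mod_cast this
      constructor
      · have h4 := h3 (a, j, k, 1) (mem_combos.mpr ⟨⟨ha2, haK'⟩, ⟨hj1, hjK'⟩, ⟨hk1, hkK'⟩,
          Or.inl rfl⟩) h hhH
        have h5 : form n (a, j, k, 1) h = n * j + a ^ h * k := by unfold form; ring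
        rw [h5] at h4
        exact h4
      · have h4 := h3 (a, j, k, -1) (mem_combos.mpr ⟨⟨ha2, haK'⟩, ⟨hj1, hjK'⟩, ⟨hk1, hkK'⟩,
          Or.inr rfl⟩) h hhH
        have h5 : form n (a, j, k, -1) h = n * j - a ^ h * k := by unfold form; ring
        rw [h5] at h4
        exact h4
  have hle : G.card ≤ {n : ℤ | x ≤ n ∧ (n : ℝ) ≤ (1 + K⁻¹) * x ∧ Good K ε x n}.ncard := by
    rw [← Set.ncard_coe_finset]
    exact Set.ncard_le_ncard hsub hfin
  have hle' : (G.card : ℝ) ≤ {n : ℤ | x ≤ n ∧ (n : ℝ) ≤ (1 + K⁻¹) * x ∧ Good K ε x n}.ncard := by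
    exact_mod_cast hle
  exact hcount.trans hle'

end Final

/-- **Main theorem.** For every `K ≥ 2` and every `ε ∈ (0,1)` there is `x₀` such that for all
`x ≥ x₀` the interval `[x, (1 + 1/K) x]` contains at least `x ^ (1 - ε)` integers that are
`(K, ε, x)`-good. -/
theorem result : ∀ K : ℝ, 2 ≤ K → ∀ ε : ℝ, 0 < ε → ε < 1 →
    ∃ x₀ : ℝ, ∀ x : ℝ, x₀ ≤ x →
      x ^ (1 - ε) ≤
        ({n : ℤ | x ≤ (n : ℝ) ∧ (n : ℝ) ≤ (1 + K⁻¹) * x ∧ Good K ε x n}.ncard : ℝ) :=
  fun K hK ε hε hε1 => Final.main K hK ε hε hε1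

end Pool.Agent.Results.MP_28b5ac_nt.ManyPrimeFactors
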